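import Mathlib
import Pool.Agent.N916.GB.Stm

/-!
# AM (helper916): an abstract machine for natural densities of criteria in Legendre symbols

`n` runs over the odd squarefree numbers in a union `K` of classes modulo `M`, `8 ∣ M`. A criterion
`G` on the sets of primes (the prime factors of `n`) is given. Hypothesis `LAH`: if `n` has enough
large prime factors in every class, whose labels with respect to the small prime factors are not
degenerate, then `G` depends only on the Legendre symbols between the large prime factors (for given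
labels) and it is satisfied for a proportion near to `c` of all the possible values of these symbols.
Conclusion: the natural density of `G` in the class is `c`. After project GB (helper916 and others).
-/

set_option autoImplicit false
set_option linter.unusedVariables false

open scoped Classical

namespace Pool.Agent.N916.AM

open Finset
open Pool.Agent.Y703.CX (sm la jj XX eL zz kk S_SIE)
open Pool.Agent.Y703.CQ (nr sg)
open Pool.Agent.N973.ND (uu)
open Pool.Agent.N916.GB (Po SA ps HB S_EQ S_BIL CntP S_ME8 S_HAL)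

/-- the class of the sets of primes; `K` is a set of residues modulo `M` -/
def Cl (M : ℕ) (K S : Finset ℕ) : Prop := (∀ p ∈ S, Po p) ∧ (∏ p ∈ S, p) % M ∈ K

/-- the sets of the class with product at most `X` -/
noncomputable def SS (M : ℕ) (K : Finset ℕ) (X : ℕ) : Finset (Finset ℕ) :=
  (range (X + 1)).powerset.filter fun S => Cl M K S ∧ ∏ p ∈ S, p ≤ X

/-- the small primes together with the primes dividing `M` -/
noncomputable def Bs (M : ℕ) (S₀ : Finset ℕ) : Finset ℕ := S₀ ∪ M.primeFactors

/-- the labels of the large primes with respect to the small ones are not degenerate -/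
def Nd (M : ℕ) (S₀ S₁ : Finset ℕ) : Prop :=
  ∀ (w : ℕ → ZMod 2) (s : ZMod 2), ((∃ v ∈ Bs M S₀, w v ≠ 0) ∨ s ≠ 0) →
    ∃ p ∈ S₁, ∑ v ∈ Bs M S₀, w v * nr p v + s * uu p ≠ 0

/-- there are enough large primes in every class -/
def Rich (M V : ℕ) (S₀ S₁ : Finset ℕ) : Prop := ∀ a < M, a.Coprime M →
  V * (S₀.card + 1) ≤ (S₁.filter fun p => p % M = a).card

/-- the hypothesis on the criterion for given `ε` and `V` -/
def LAV (M : ℕ) (K : Finset ℕ) (G : Finset ℕ → Prop) (c ε : ℝ) (V : ℕ) : Prop :=
  ∀ (ι : Type) [Fintype ι] [LinearOrder ι] (S₀ : Finset ℕ) (p : ι → ℕ),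
    (∀ v ∈ S₀, Po v) → (∀ i, Po (p i) ∧ p i ∉ S₀ ∧ (p i).Coprime M) → Function.Injective p →
    ((∏ v ∈ S₀, v) * ∏ i, p i) % M ∈ K → Nd M S₀ (univ.image p) → Rich M V S₀ (univ.image p) →
    ∃ Q : (ps ι → ZMod 2) → Prop,
      (∀ q : ι → ℕ, Function.Injective q → (∀ i, Po (q i) ∧ q i ∉ S₀ ∧ q i % M = p i % M ∧
          ∀ v ∈ S₀, nr (q i) v = nr (p i) v) →
        (G (S₀ ∪ univ.image q) ↔ Q fun e => nr (q e.1.1) (q e.1.2))) ∧
      |((univ.filter Q).card : ℝ) / 2 ^ (ps ι).card - c| ≤ ε

/-- the hypothesis on the criterion -/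
def LAH (M : ℕ) (K : Finset ℕ) (G : Finset ℕ → Prop) (c : ℝ) : Prop :=
  ∀ ε : ℝ, 0 < ε → ∃ V : ℕ, LAV M K G c ε V

/-- the regular sets -/
noncomputable def RR (M : ℕ) (K : Finset ℕ) (X z H k V : ℕ) : Finset (Finset ℕ) :=
  (SS M K X).filter fun S => Set.InjOn (jj H) (la z S : Set ℕ) ∧ S.card ≤ k ∧
    (∏ p ∈ sm z S, p) * ∏ p ∈ la z S, XX H (jj H p) ≤ X ∧ Rich M V (sm z S) (la z S)

/-- the labels of the large primes `1` modulo `8` with respect to the small primes and the set
`B` -/
def N8 (B S₀ S₁ : Finset ℕ) : Prop :=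
  ∀ w : ℕ → ZMod 2, (∃ u ∈ S₀ ∪ B, w u ≠ 0) → ∃ p ∈ S₁, p % 8 = 1 ∧ ∑ u ∈ S₀ ∪ B, w u * nr p u ≠ 0

end Pool.Agent.N916.AM
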