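import Pool.Agent.N916.AM.Stm
import Pool.Agent.N509.GB.FE2
import Pool.Agent.Y405.CQ.MER

/-!
# AM: few sets have few large primes in a class modulo `M` (after helper509 and helper362)
-/

set_option autoImplicit false

open scoped Classical

namespace Pool.Agent.N916.AM.Few

open Finset Filter
open Pool.Agent.Y703.CX (sm la eL zz S_SIE)
open Pool.Agent.N916.GB (Po SA)
open Pool.Agent.N509.GB.FE2 (SA_mem)
open Pool.Agent.Y495.CX.Few (PN euler prod_pos' le_of_mem_prod mert eL_tendsto log_small zz_ge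
  loglog_zz rpow_eq)
open Pool.Agent.R413.SQ.FEW (moment)

/-- sets with many small primes -/
lemma part1 (δ : ℝ) (hδ : 0 < δ) : ∃ C : ℝ, 0 ≤ C ∧ ∀ᶠ X : ℕ in atTop,
    (((SA X).filter fun S => δ * eL X < ((sm (zz X) S).card : ℝ)).card : ℝ) ≤
      C * X * Real.exp (-(4 / 5) * eL X) := by
  obtain ⟨C, hC0, hC⟩ := mert
  set κ : ℝ := Real.exp (1 / δ) with hκ
  have κ0 : 0 < κ := Real.exp_pos _
  refine ⟨Real.exp (κ * C), (Real.exp_pos _).le, ?_⟩
  filter_upwards [eL_tendsto.eventually (log_small (3 * κ) (1 / 5) (by norm_num)),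
    eL_tendsto.eventually (eventually_ge_atTop 2)] with X h1 h2
  have h3 := moment X (zz X) (SA X)
    (fun S hS => ⟨fun p hp => ((SA_mem hS).1 p hp).1, (SA_mem hS).2⟩) κ κ0.le
  have h4 := hC (zz X) (zz_ge h2)
  have h5 := loglog_zz h2
  have h6 : (((SA X).filter fun S => δ * eL X < ((sm (zz X) S).card : ℝ)).card : ℝ) *
      Real.exp (eL X) ≤ ∑ S ∈ SA X, κ ^ (sm (zz X) S).card := by
    rw [← nsmul_eq_mul, ← sum_const]
    refine le_trans ?_ (sum_le_sum_of_subset_of_nonneg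
      (filter_subset (fun S => δ * eL X < ((sm (zz X) S).card : ℝ)) (SA X))
      fun S _ _ => by positivity)
    refine sum_le_sum fun S hS => ?_
    rw [mem_filter] at hS
    rw [hκ, ← Real.exp_nat_mul]
    apply Real.exp_le_exp.2
    have h7 := hS.2
    rw [mul_one_div, le_div_iff₀ hδ]
    linarith
  have h7 := h6.trans h3
  have h8 : κ * ∑ p ∈ PN (zz X), (1 : ℝ) / p ≤ κ * C + 1 / 5 * eL X := by
    have : κ * ∑ p ∈ PN (zz X), (1 : ℝ) / p ≤ κ * (3 * Real.log (eL X) + C) :=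
      mul_le_mul_of_nonneg_left (by linarith) κ0.le
    nlinarith
  have h9 : (X : ℝ) * Real.exp (κ * ∑ p ∈ PN (zz X), (1 : ℝ) / p) ≤
      X * (Real.exp (κ * C) * Real.exp (1 / 5 * eL X)) := by
    rw [← Real.exp_add]
    exact mul_le_mul_of_nonneg_left (Real.exp_le_exp.2 h8) (Nat.cast_nonneg _)
  have h10 := h7.trans h9
  have h11 : (Real.exp (κ * C) * X * Real.exp (-(4 / 5) * eL X)) * Real.exp (eL X) =
      X * (Real.exp (κ * C) * Real.exp (1 / 5 * eL X)) := by
    have : Real.exp (1 / 5 * eL X) = Real.exp (-(4 / 5) * eL X) * Real.exp (eL X) := by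
      rw [← Real.exp_add]
      congr 1
      ring
    rw [this]
    ring
  rw [← h11] at h10
  exact le_of_mul_le_mul_right h10 (Real.exp_pos _)

/-- the sets with at most `B` large primes in the class -/
noncomputable def LL (M a X B : ℕ) : Finset (Finset ℕ) :=
  (range (X + 1)).powerset.filter fun S => (∀ p ∈ S, Po p) ∧ ∏ p ∈ S, p ≤ X ∧
    ((la (zz X) S).filter fun p => p % M = a).card ≤ B

lemma mem_LL {M a X B : ℕ} {S : Finset ℕ} : S ∈ LL M a X B ↔ S ⊆ range (X + 1) ∧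
    (∀ p ∈ S, Po p) ∧ ∏ p ∈ S, p ≤ X ∧ ((la (zz X) S).filter fun p => p % M = a).card ≤ B := by
  unfold LL
  rw [mem_filter, mem_powerset]

lemma LL_sub {M a X B : ℕ} {S T : Finset ℕ} (hS : S ∈ LL M a X B) (h : T ⊆ S) :
    T ∈ LL M a X B := by
  rw [mem_LL] at hS ⊢
  obtain ⟨a0, a1, a2, a3⟩ := hS
  refine ⟨h.trans a0, fun p hp => a1 p (h hp), ?_, ?_⟩
  · refine le_trans ?_ a2
    exact prod_le_prod_of_subset_of_one_le' h fun p hp _ => (a1 p hp).1.one_lt.le
  · refine (card_le_card (filter_subset_filter _ ?_)).trans a3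
    unfold la
    exact filter_subset_filter _ h

/-- the weight -/
noncomputable def wt (M a z p : ℕ) : ℝ := if ¬ p ≤ z ∧ p % M = a then Real.exp (-1) else 1

lemma wt_nonneg (M a z p : ℕ) : 0 ≤ wt M a z p := by
  unfold wt
  split_ifs
  · exact (Real.exp_pos _).le
  · exact zero_le_one

lemma one_le_wt {M a X B : ℕ} {S : Finset ℕ} (hS : S ∈ LL M a X B) :
    1 ≤ Real.exp B * ∏ p ∈ S, wt M a (zz X) p := by
  rw [mem_LL] at hS
  unfold wt
  rw [← prod_filter, prod_const, ← Real.exp_nat_mul, ← Real.exp_add]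
  have h1 : (S.filter fun p => ¬ p ≤ zz X ∧ p % M = a).card ≤ B := by
    refine (card_le_card ?_).trans hS.2.2.2
    intro p hp
    rw [mem_filter] at hp
    unfold la
    rw [mem_filter, mem_filter]
    exact ⟨⟨hp.1, hp.2.1⟩, hp.2.2⟩
  have h2 : ((S.filter fun p => ¬ p ≤ zz X ∧ p % M = a).card : ℝ) ≤ B := by exact_mod_cast h1
  apply Real.one_le_exp
  linarith

/-- the logarithmic density of the family -/
lemma LL_sum (M a X B : ℕ) : ∑ S ∈ LL M a X B, (1 : ℝ) / ((∏ p ∈ S, p : ℕ) : ℝ) ≤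
    Real.exp (B + (∑ p ∈ PN (zz X), (1 : ℝ) / p +
      (∑ p ∈ PN X, (1 : ℝ) / p -
        1 / 2 * ∑ p ∈ (PN X).filter (fun p => p % M = a), (1 : ℝ) / p))) := by
  have h1 : ∀ S ∈ LL M a X B, (1 : ℝ) / ((∏ p ∈ S, p : ℕ) : ℝ) ≤
      Real.exp B * ∏ p ∈ S, (wt M a (zz X) p * (1 / p)) := by
    intro S hS
    have h2 := one_le_wt hS
    have h3 : (0 : ℝ) ≤ ∏ p ∈ S, (1 : ℝ) / p := prod_nonneg fun p _ => by positivity
    have h4 : (1 : ℝ) / ((∏ p ∈ S, p : ℕ) : ℝ) = ∏ p ∈ S, (1 : ℝ) / p := by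
      rw [prod_div_distrib, prod_const_one]
      push_cast
      rfl
    rw [h4, prod_mul_distrib]
    calc ∏ p ∈ S, (1 : ℝ) / p = 1 * ∏ p ∈ S, (1 : ℝ) / p := (one_mul _).symm
      _ ≤ (Real.exp B * ∏ p ∈ S, wt M a (zz X) p) * ∏ p ∈ S, (1 : ℝ) / p :=
          mul_le_mul_of_nonneg_right h2 h3
      _ = _ := by ring
  refine (sum_le_sum h1).trans ?_
  rw [← mul_sum, Real.exp_add]
  apply mul_le_mul_of_nonneg_left _ (Real.exp_pos _).le
  have hnn : ∀ p : ℕ, 0 ≤ wt M a (zz X) p * (1 / (p : ℝ)) := fun p =>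
    mul_nonneg (wt_nonneg _ _ _ p) (by positivity)
  have h5 : ∑ S ∈ LL M a X B, ∏ p ∈ S, (wt M a (zz X) p * (1 / (p : ℝ))) ≤
      ∑ S ∈ (PN X).powerset, ∏ p ∈ S, (wt M a (zz X) p * (1 / (p : ℝ))) := by
    refine sum_le_sum_of_subset_of_nonneg ?_ fun S _ _ => prod_nonneg fun p _ => hnn p
    intro S hS
    rw [mem_LL] at hS
    rw [mem_powerset]
    intro p hp
    have h6 := hS.2.1 p hp
    rw [mem_filter, mem_Icc]
    exact ⟨⟨h6.1.one_lt.le, le_of_mem_prod (fun p hp => (hS.2.1 p hp).1) hS.2.2.1 hp⟩, h6.1⟩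
  refine h5.trans ((euler _ _ fun p _ => hnn p).trans ?_)
  apply Real.exp_le_exp.2
  have hexp : Real.exp (-1) ≤ 1 / 2 := by
    rw [Real.exp_neg]
    have : (2 : ℝ) ≤ Real.exp 1 := by
      have := Real.add_one_le_exp (1 : ℝ)
      linarith
    rw [one_div]
    exact inv_anti₀ (by norm_num) this
  have h6 : ∀ p ∈ PN X, wt M a (zz X) p * (1 / (p : ℝ)) ≤
      (if p ≤ zz X then (1 : ℝ) / p else 0) + ((1 / (p : ℝ)) -
        (if p % M = a then 1 / 2 * (1 / (p : ℝ)) else 0)) := by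
    intro p hp
    have hp0 : (0 : ℝ) ≤ 1 / p := by positivity
    unfold wt
    by_cases hpz : p ≤ zz X
    · rw [if_neg (fun h => h.1 hpz), if_pos hpz]
      have e2 : (if p % M = a then 1 / 2 * (1 / (p : ℝ)) else 0) ≤ 1 / p := by
        split_ifs
        · linarith
        · exact hp0
      linarith
    · rw [if_neg hpz]
      by_cases h : p % M = a
      · rw [if_pos ⟨hpz, h⟩, if_pos h]
        have := mul_le_mul_of_nonneg_right hexp hp0
        linarith
      · rw [if_neg (fun h' => h h'.2), if_neg h]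
        linarith
  refine (sum_le_sum h6).trans ?_
  rw [sum_add_distrib, sum_sub_distrib, ← sum_filter, ← sum_filter, ← mul_sum]
  gcongr
  intro p hp
  rw [mem_filter, mem_filter, mem_Icc] at hp
  rw [mem_filter, mem_Icc]
  exact ⟨⟨hp.1.1.1, hp.2⟩, hp.1.2⟩

/-- sets with few large primes in the class -/
lemma part2 (hs : S_SIE) {M a : ℕ} (hM0 : 0 < M) (ha : a < M) (hac : a.Coprime M) :
    ∃ C c : ℝ, 0 ≤ C ∧ 0 < c ∧ ∀ᶠ X : ℕ in atTop,
    ((LL M a X ⌊2 * c * eL X⌋₊).card : ℝ) ≤ C * X * Real.exp (-c * eL X) := by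
  obtain ⟨C, hC0, hC⟩ := mert
  obtain ⟨C₁, hC₁0, hC₁⟩ := Pool.Agent.Y405.CQ.mertens_ap M hM0 a ha hac
  obtain ⟨C', hC'1, hC'⟩ := hs
  have hφ : (0 : ℝ) < (Nat.totient M : ℝ) := by exact_mod_cast Nat.totient_pos.2 hM0
  set c : ℝ := 1 / (8 * (Nat.totient M : ℝ)) with hc
  have hc0 : 0 < c := by positivity
  refine ⟨C' * Real.exp (2 * C + C₁), c, by positivity, hc0, ?_⟩
  filter_upwards [eL_tendsto.eventually (log_small 3 c hc0),
    eL_tendsto.eventually (eventually_ge_atTop 2), eventually_ge_atTop 3] with X h1 h2 h3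
  set l := eL X with hl
  have h4 := hC (zz X) (zz_ge h2)
  have h5 := loglog_zz h2
  have h6 := hC X h3
  have h6' := (abs_le.1 (hC₁ X h3)).1
  rw [← hl] at h5
  change _ ≤ l + C at h6
  change -C₁ ≤ _ - 1 / (Nat.totient M : ℝ) * l at h6'
  have h7 := hC' X (LL M a X ⌊2 * c * l⌋₊) (by omega)
    (fun S hS => ⟨fun p hp => ((mem_LL.1 hS).2.1 p hp).1, (mem_LL.1 hS).2.2.1⟩)
    (fun S hS T hT => LL_sub hS hT)
  have h8 := LL_sum M a X ⌊2 * c * l⌋₊
  have hfl : ((⌊2 * c * l⌋₊ : ℕ) : ℝ) ≤ 2 * c * l := Nat.floor_le (by positivity)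
  have hlX : Real.log X = Real.exp l := by
    have := rpow_eq (X := X) h2 1
    rwa [Real.rpow_one, one_mul] at this
  rw [hlX] at h7
  have hPN : (Icc 1 X).filter (fun p => p.Prime ∧ p % M = a) =
      (PN X).filter (fun p => p % M = a) := by
    unfold PN
    rw [Finset.filter_filter]
  rw [hPN] at h6'
  have hcφ : 1 / (Nat.totient M : ℝ) = 8 * c := by
    rw [hc]
    field_simp
  rw [hcφ] at h6'
  have h12 : Real.exp (((⌊2 * c * l⌋₊ : ℕ) : ℝ) + (∑ p ∈ PN (zz X), (1 : ℝ) / p +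
      (∑ p ∈ PN X, (1 : ℝ) / p -
        1 / 2 * ∑ p ∈ (PN X).filter (fun p => p % M = a), (1 : ℝ) / p))) ≤
      Real.exp (2 * C + C₁) * Real.exp ((1 - c) * l) := by
    rw [← Real.exp_add]
    apply Real.exp_le_exp.2
    linarith
  have h13 : ((LL M a X ⌊2 * c * l⌋₊).card : ℝ) * Real.exp l ≤
      C' * X * (Real.exp (2 * C + C₁) * Real.exp ((1 - c) * l)) := by
    refine h7.trans ?_
    exact mul_le_mul_of_nonneg_left (h8.trans h12) (by positivity)
  have h14 : (C' * Real.exp (2 * C + C₁) * X * Real.exp (-c * l)) * Real.exp l =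
      C' * X * (Real.exp (2 * C + C₁) * Real.exp ((1 - c) * l)) := by
    have : Real.exp ((1 - c) * l) = Real.exp (-c * l) * Real.exp l := by
      rw [← Real.exp_add]
      congr 1
      ring
    rw [this]
    ring
  rw [← h14] at h13
  exact le_of_mul_le_mul_right h13 (Real.exp_pos _)

/-- **Few sets have few large primes in a class.** -/
theorem few (hs : S_SIE) {M a : ℕ} (hM0 : 0 < M) (ha : a < M) (hac : a.Coprime M) (V : ℕ)
    (ε : ℝ) (hε : 0 < ε) : ∃ X₀ : ℕ, ∀ X : ℕ, X₀ ≤ X →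
    (((SA X).filter fun S => ((la (zz X) S).filter fun p => p % M = a).card <
      V * ((sm (zz X) S).card + 1)).card : ℝ) ≤ ε * X := by
  obtain ⟨C₂, c, hC₂, hc, h2⟩ := part2 hs hM0 ha hac
  set W : ℝ := (V : ℝ) + 1 with hW
  have hW0 : 0 < W := by positivity
  obtain ⟨C₁, hC₁, h1⟩ := part1 (c / W) (by positivity)
  set c' : ℝ := min c (4 / 5) with hc'
  have hc'0 : 0 < c' := lt_min hc (by norm_num)
  set D : ℝ := C₁ + C₂ + 1 with hD
  have hD0 : 0 < D := by positivity
  have h4 := (h1.and h2).and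
    (eL_tendsto.eventually (eventually_ge_atTop (max (max 2 (W / c))
      (Real.log (D / ε) / c'))))
  rw [eventually_atTop] at h4
  obtain ⟨X₀, hX₀⟩ := h4
  refine ⟨X₀, fun X hX => ?_⟩
  obtain ⟨⟨h5, h6⟩, h8⟩ := hX₀ X hX
  have h9 : 2 ≤ eL X := (le_max_left _ _).trans ((le_max_left _ _).trans h8)
  have h10 : W / c ≤ eL X := (le_max_right _ _).trans ((le_max_left _ _).trans h8)
  have h10' : Real.log (D / ε) / c' ≤ eL X := (le_max_right _ _).trans h8
  rw [div_le_iff₀ hc] at h10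
  rw [div_le_iff₀ hc'0] at h10'
  have h11 : ((SA X).filter fun S => ((la (zz X) S).filter fun p => p % M = a).card <
      V * ((sm (zz X) S).card + 1)) ⊆
      ((SA X).filter fun S => c / W * eL X < ((sm (zz X) S).card : ℝ)) ∪
        LL M a X ⌊2 * c * eL X⌋₊ := by
    intro S hS
    rw [mem_filter] at hS
    rw [mem_union, mem_filter]
    by_cases hcc : c / W * eL X < ((sm (zz X) S).card : ℝ)
    · exact Or.inl ⟨hS.1, hcc⟩
    · right
      rw [not_lt] at hcc
      obtain ⟨a1, a2⟩ := SA_mem hS.1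
      rw [mem_LL]
      refine ⟨?_, a1, a2, ?_⟩
      · intro p hp
        rw [mem_range]
        have := le_of_mem_prod (fun p hp => (a1 p hp).1) a2 hp
        omega
      · apply Nat.le_floor
        have h12 : ((((la (zz X) S).filter fun p => p % M = a).card : ℕ) : ℝ) ≤
            V * (((sm (zz X) S).card : ℝ) + 1) := by exact_mod_cast hS.2.le
        have h13 : W * ((sm (zz X) S).card : ℝ) ≤ c * eL X := by
          have := mul_le_mul_of_nonneg_left hcc hW0.le
          refine this.trans (le_of_eq ?_)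
          field_simp
        have h14 : (V : ℝ) * ((sm (zz X) S).card : ℝ) ≤ W * ((sm (zz X) S).card : ℝ) := by
          apply mul_le_mul_of_nonneg_right _ (Nat.cast_nonneg _)
          linarith
        have h15 : (V : ℝ) ≤ W := by linarith
        linarith
  have h12 : (((SA X).filter fun S => ((la (zz X) S).filter fun p => p % M = a).card <
      V * ((sm (zz X) S).card + 1)).card : ℝ) ≤
      (((SA X).filter fun S => c / W * eL X < ((sm (zz X) S).card : ℝ)).card : ℝ) +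
      ((LL M a X ⌊2 * c * eL X⌋₊).card : ℝ) := by
    exact_mod_cast (card_le_card h11).trans (card_union_le _ _)
  have h18 : (0 : ℝ) ≤ X := Nat.cast_nonneg _
  have hm1 : Real.exp (-(4 / 5) * eL X) ≤ Real.exp (-c' * eL X) := by
    apply Real.exp_le_exp.2
    apply mul_le_mul_of_nonneg_right _ (by linarith)
    have := min_le_right c (4 / 5 : ℝ)
    linarith
  have hm2 : Real.exp (-c * eL X) ≤ Real.exp (-c' * eL X) := by
    apply Real.exp_le_exp.2
    apply mul_le_mul_of_nonneg_right _ (by linarith)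
    have := min_le_left c (4 / 5 : ℝ)
    linarith
  have h13 : C₁ * X * Real.exp (-(4 / 5) * eL X) ≤ C₁ * X * Real.exp (-c' * eL X) :=
    mul_le_mul_of_nonneg_left hm1 (by positivity)
  have h13' : C₂ * X * Real.exp (-c * eL X) ≤ C₂ * X * Real.exp (-c' * eL X) :=
    mul_le_mul_of_nonneg_left hm2 (by positivity)
  have h16 : D * Real.exp (-c' * eL X) ≤ ε := by
    have h17 : Real.exp (-c' * eL X) ≤ Real.exp (-Real.log (D / ε)) := by
      apply Real.exp_le_exp.2
      linarith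
    rw [Real.exp_neg, Real.exp_log (by positivity)] at h17
    calc D * Real.exp (-c' * eL X) ≤ D * (D / ε)⁻¹ := mul_le_mul_of_nonneg_left h17 hD0.le
      _ = ε := by field_simp
  calc (((SA X).filter fun S => ((la (zz X) S).filter fun p => p % M = a).card <
      V * ((sm (zz X) S).card + 1)).card : ℝ)
      ≤ C₁ * X * Real.exp (-c' * eL X) + C₂ * X * Real.exp (-c' * eL X) :=
        h12.trans (add_le_add (h5.trans h13) (h6.trans h13'))
    _ ≤ (D * Real.exp (-c' * eL X)) * X := by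
        have h19 : (0 : ℝ) ≤ X * Real.exp (-c' * eL X) := by positivity
        rw [hD]
        nlinarith
    _ ≤ ε * X := mul_le_mul_of_nonneg_right h16 h18

end Pool.Agent.N916.AM.Few
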