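import Pool.Agent.N916.AM.Key
import Pool.Agent.N916.AM.Bad
import Pool.Agent.N916.AM.Few
import Pool.Agent.N218.GB.Fin

/-!
# AM: the final asymptotics (after `Pool/Agent/N218/GB/Asy.lean` of helper218)
-/

set_option autoImplicit false

open scoped Classical
open Finset Filter

namespace Pool.Agent.N916.AM

open Pool.Agent.Y703.CQ (nr sg)
open Pool.Agent.N973.ND (uu)
open Pool.Agent.N916.GB (Po SA ps HB S_EQ S_BIL CntP S_ME8 S_HAL S_FE1)
open Pool.Agent.Y703.CX (sm la jj XX eL zz kk S_SIE eL_tendsto logX_eq HH NN ev_eL one_le_exp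
  HH_ge HH_le HH_pos kk_ge kk_le X_pos one_add_log lin_le kap zz_ge zz_pos kap_nonneg kap_pow kap_le)
open Pool.Agent.N218.GB.Asy (Sml sml_of sml_add sml_eps sml_many sml_cut sml_coll log_three
  SA_card cmp)

/-- the main error term -/
theorem sml_main {C : ℝ} (hC : 1 ≤ C) (M : ℕ) : Sml fun X => (M * (NN X : ℝ) + M) ^ kk X *
    (3 ^ (9 * kk X ^ 2 + 9) * kap C X) * (X * (1 + Real.log X)) := by
  apply sml_of (C := 4 * C) (a := 1) (by norm_num)
  filter_upwards [ev_eL (20000 + 4 * M)] with X hX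
  set l := eL X with hl
  have hM0 : (0 : ℝ) ≤ M := Nat.cast_nonneg _
  have h0 : 0 < eL X := by linarith
  have h1 : 1 ≤ eL X := by linarith
  have hX0 : (0 : ℝ) ≤ X := Nat.cast_nonneg _
  have hN : M * (NN X : ℝ) + M ≤ Real.exp (5 * l) := by
    have h2 : (NN X : ℝ) ≤ HH X * Real.log X + 1 := by
      unfold NN
      push_cast
      have := Nat.floor_le (a := (HH X : ℝ) * Real.log X)
        (mul_nonneg (Nat.cast_nonneg _) (Real.log_natCast_nonneg X))
      linarith
    have h3 : (HH X : ℝ) * Real.log X ≤ 2 * Real.exp (4 * l) := by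
      rw [logX_eq h0]
      calc (HH X : ℝ) * Real.exp (eL X) ≤ 2 * Real.exp (3 * eL X) * Real.exp (eL X) :=
            mul_le_mul_of_nonneg_right (HH_le h0) (Real.exp_pos _).le
        _ = 2 * Real.exp (4 * l) := by
            rw [mul_assoc, ← Real.exp_add]
            congr 2
            rw [hl]
            ring
    have h4 : 1 ≤ Real.exp (4 * l) := one_le_exp (by linarith)
    have h5 : (4 * M : ℝ) ≤ Real.exp l := by
      have := Real.add_one_le_exp l
      linarith
    have h6 : Real.exp (5 * l) = Real.exp (4 * l) * Real.exp l := by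
      rw [← Real.exp_add]; congr 1; ring
    have h7 : M * (NN X : ℝ) + M ≤ M * (4 * Real.exp (4 * l)) := by
      have h8 : (NN X : ℝ) + 1 ≤ 4 * Real.exp (4 * l) := by linarith
      have := mul_le_mul_of_nonneg_left h8 hM0
      linarith
    rw [h6]
    have h9 := mul_le_mul_of_nonneg_left h5 (Real.exp_pos (4 * l)).le
    linarith
  have hkk := kk_le h1
  have hkk0 : (0 : ℝ) ≤ kk X := Nat.cast_nonneg _
  have hA : (M * (NN X : ℝ) + M) ^ kk X ≤ Real.exp (55 * l ^ 2) := by
    calc (M * (NN X : ℝ) + M) ^ kk X ≤ (Real.exp (5 * l)) ^ kk X := by gcongr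
      _ = Real.exp (kk X * (5 * l)) := (Real.exp_nat_mul _ _).symm
      _ ≤ Real.exp (55 * l ^ 2) := by
          apply Real.exp_le_exp.2
          nlinarith
  have hB : (3 : ℝ) ^ (9 * kk X ^ 2 + 9) ≤ Real.exp (1210 * l ^ 2) := by
    have e : (3 : ℝ) ^ (9 * kk X ^ 2 + 9) = Real.exp ((9 * (kk X : ℝ) ^ 2 + 9) * Real.log 3) := by
      rw [mul_comm (9 * (kk X : ℝ) ^ 2 + 9) (Real.log 3), Real.exp_mul, Real.exp_log (by norm_num)]
      rw [← Real.rpow_natCast]
      congr 1
      push_cast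
      ring
    rw [e]
    apply Real.exp_le_exp.2
    have h2 := log_three
    have h3 : (kk X : ℝ) ^ 2 ≤ 121 * l ^ 2 := by nlinarith
    have h4 : 0 ≤ (kk X : ℝ) ^ 2 := sq_nonneg _
    have h5 : (9 * (kk X : ℝ) ^ 2 + 9) * Real.log 3 ≤ (9 * (kk X : ℝ) ^ 2 + 9) * 1.1 :=
      mul_le_mul_of_nonneg_left h2 (by positivity)
    have h6 : 1 ≤ l ^ 2 := one_le_pow₀ h1
    linarith
  have hK := kap_le hC h1
  have hLg := one_add_log h0
  have hmain : (M * (NN X : ℝ) + M) ^ kk X * (3 ^ (9 * kk X ^ 2 + 9) * kap C X) *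
      (X * (1 + Real.log X)) ≤ Real.exp (55 * l ^ 2) * (Real.exp (1210 * l ^ 2) *
        (2 * C * Real.exp (-l ^ 3 / 12))) * (X * (2 * Real.exp l)) := by
    have := kap_nonneg hC X
    have : 0 ≤ 1 + Real.log X := by
      have := Real.log_natCast_nonneg X
      linarith
    gcongr
  refine hmain.trans ?_
  have e : Real.exp (55 * l ^ 2) * (Real.exp (1210 * l ^ 2) *
        (2 * C * Real.exp (-l ^ 3 / 12))) * (X * (2 * Real.exp l)) =
      4 * C * (X * Real.exp (55 * l ^ 2 + 1210 * l ^ 2 + -l ^ 3 / 12 + l)) := by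
    rw [Real.exp_add, Real.exp_add, Real.exp_add]
    ring
  rw [e]
  have h9 : 55 * l ^ 2 + 1210 * l ^ 2 + -l ^ 3 / 12 + l ≤ -1 * l := by
    have h10 : 20000 * l ^ 2 ≤ l ^ 3 := by
      have : l ^ 3 = l * l ^ 2 := by ring
      rw [this]
      exact mul_le_mul_of_nonneg_right (by linarith) (sq_nonneg l)
    have h11 : l ≤ l ^ 2 := by nlinarith
    linarith
  have h11 := Real.exp_le_exp.2 h9
  have hC0 : (0 : ℝ) ≤ 4 * C := by linarith
  gcongr

theorem SS_sub (M : ℕ) (K : Finset ℕ) (X : ℕ) : SS M K X ⊆ SA X := by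
  intro S hS
  unfold SS at hS
  unfold SA
  rw [mem_filter] at hS ⊢
  exact ⟨hS.1, hS.2.1.1, hS.2.2⟩

/-- the odd primes dividing `M` -/
noncomputable def oM (M : ℕ) : Finset ℕ := M.primeFactors.erase 2

theorem oM_po {M : ℕ} : ∀ p ∈ oM M, Po p := by
  intro p hp
  unfold oM at hp
  rw [mem_erase, Nat.mem_primeFactors] at hp
  exact ⟨hp.2.1, hp.1⟩

/-- the labels are not degenerate if they are not degenerate at the primes `1` modulo `8` and if
there are large primes `3` and `5` modulo `8` -/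
theorem nd_of8 {M : ℕ} (hM : 8 ∣ M) (hM0 : 0 < M) {S₀ S₁ : Finset ℕ} (h0 : ∀ p ∈ S₀, Po p)
    (h1 : ∀ p ∈ S₁, Po p) (hN : N8 (oM M) S₀ S₁) (h3 : ∃ p ∈ S₁, p % 8 = 3)
    (h5 : ∃ p ∈ S₁, p % 8 = 5) : Nd M S₀ S₁ := by
  intro w s hws
  by_contra hcon
  push Not at hcon
  have h2M : 2 ∈ M.primeFactors := by
    rw [Nat.mem_primeFactors]
    exact ⟨Nat.prime_two, Dvd.dvd.trans (by norm_num) hM, hM0.ne'⟩
  have hBs : Bs M S₀ = insert 2 (S₀ ∪ oM M) := by
    unfold Bs oM
    rw [← Finset.union_insert, Finset.insert_erase h2M]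
  have h2 : 2 ∉ S₀ ∪ oM M := by
    rw [mem_union]
    rintro (h | h)
    · exact (h0 2 h).2 rfl
    · exact (oM_po 2 h).2 rfl
  have key : ∀ p ∈ S₁, w 2 * nr p 2 + ∑ v ∈ S₀ ∪ oM M, w v * nr p v + s * uu p = 0 := by
    intro p hp
    have := hcon p hp
    rwa [hBs, sum_insert h2] at this
  have hw : ∀ v ∈ S₀ ∪ oM M, w v = 0 := by
    by_contra hw
    push Not at hw
    obtain ⟨p, hp, hp8, hpn⟩ := hN w hw
    have e := key p hp
    have e1 : nr p 2 = 0 := by
      rw [Pool.Agent.N19.GB.nr_two (h1 p hp).1 (h1 p hp).2, if_pos (Or.inl hp8)]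
    have e2 : uu p = 0 := by
      unfold uu
      rw [if_neg (by omega)]
    rw [e1, e2, mul_zero, zero_add, mul_zero, add_zero] at e
    exact hpn e
  have hsum : ∀ p, ∑ v ∈ S₀ ∪ oM M, w v * nr p v = 0 := fun p =>
    sum_eq_zero fun v hv => by rw [hw v hv, zero_mul]
  have hw2 : w 2 = 0 := by
    obtain ⟨p, hp, hp8⟩ := h5
    have e := key p hp
    have e1 : nr p 2 = 1 := by
      rw [Pool.Agent.N19.GB.nr_two (h1 p hp).1 (h1 p hp).2, if_neg (by omega)]
    have e2 : uu p = 0 := by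
      unfold uu
      rw [if_neg (by omega)]
    rw [e1, e2, hsum, mul_zero, add_zero, add_zero, mul_one] at e
    exact e
  have hs : s = 0 := by
    obtain ⟨p, hp, hp8⟩ := h3
    have e := key p hp
    have e2 : uu p = 1 := by
      unfold uu
      rw [if_pos (by omega)]
    rw [e2, hsum, hw2, zero_mul, add_zero, zero_add, mul_one] at e
    exact e
  rcases hws with ⟨v, hv, hv0⟩ | hs0
  · rw [hBs] at hv
    rcases mem_insert.1 hv with rfl | hv
    · exact hv0 hw2
    · exact hv0 (hw v hv)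
  · exact hs0 hs

/-- the sets outside the regular part -/
theorem out_sub {M : ℕ} (hM : 8 ∣ M) (hM0 : 0 < M) (K : Finset ℕ) (X z H k V : ℕ) :
    SS M K X \ ((RR M K X z H k V).filter fun S => Nd M (sm z S) (la z S)) ⊆
      ((((((SA X).filter fun S => k < S.card) ∪
      ((SA X).filter fun S => S.card ≤ k ∧
        X < (∏ p ∈ sm z S, p) * ∏ p ∈ la z S, XX H (jj H p))) ∪
      ((SA X).filter fun S => ¬ Set.InjOn (jj H) (la z S : Set ℕ))) ∪
      (((range M).filter fun a => a.Coprime M).biUnion fun a =>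
        ((SA X).filter fun S => ((la z S).filter fun p => p % M = a).card <
        V * ((sm z S).card + 1)))) ∪
      ((SA X).filter fun S => S.card ≤ k ∧ ¬ N8 (oM M) (sm z S) (la z S))) ∪
      (((SA X).filter fun S => ∀ p ∈ la z S, p % 8 ≠ 3 % 8) ∪
      ((SA X).filter fun S => ∀ p ∈ la z S, p % 8 ≠ 5 % 8)) := by
  intro S hS
  rw [Finset.mem_sdiff, Finset.mem_filter] at hS
  obtain ⟨h1', h2⟩ := hS
  have h1 := SS_sub M K X h1'
  simp only [mem_union, mem_filter, mem_biUnion, mem_range]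
  by_contra hc
  push Not at hc
  obtain ⟨⟨⟨⟨⟨c1, c2⟩, c3⟩, c4⟩, c5⟩, c6, c7⟩ := hc
  have d1 : S.card ≤ k := c1 h1
  have d2 := c2 h1 d1
  have d3 := c3 h1
  have d4 : Rich M V (sm z S) (la z S) := by
    intro a ha hac
    exact c4 a ⟨ha, hac⟩ h1
  have d5 := c5 h1 d1
  obtain ⟨p3, hp3, hp3'⟩ := c6 h1
  obtain ⟨p5, hp5, hp5'⟩ := c7 h1
  have hS : ∀ p ∈ S, Po p := by
    unfold SA at h1
    exact (mem_filter.1 h1).2.1
  have d6 : Nd M (sm z S) (la z S) := by
    apply nd_of8 hM hM0 _ _ d5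
    · exact ⟨p3, hp3, by simpa using hp3'⟩
    · exact ⟨p5, hp5, by simpa using hp5'⟩
    · exact fun p hp => hS p (mem_filter.1 hp).1
    · exact fun p hp => hS p (mem_filter.1 hp).1
  apply h2
  refine ⟨?_, d6⟩
  unfold RR
  rw [mem_filter]
  exact ⟨h1', d3, d1, d2, d4⟩

theorem sml_sum {ι : Type} (A : Finset ι) (E : ι → ℕ → ℝ) (h : ∀ a ∈ A, Sml (E a)) :
    Sml fun X => ∑ a ∈ A, E a X := by
  classical
  induction A using Finset.induction_on with
  | empty =>
    intro δ hδ
    filter_upwards with X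
    simp only [sum_empty]
    positivity
  | insert a A ha ih =>
    have h1 := sml_add (h a (mem_insert_self a A)) (ih fun b hb => h b (mem_insert_of_mem hb))
    intro δ hδ
    filter_upwards [h1 δ hδ] with X hX
    rw [sum_insert ha]
    exact hX

/-- **The proportion of the good sets.** -/
theorem t_DQ {M : ℕ} (hM : 8 ∣ M) (hM0 : 0 < M) {K : Finset ℕ} {G : Finset ℕ → Prop} {c : ℝ}
    (hc0 : 0 ≤ c) (hc1 : c ≤ 1) (hL : LAH M K G c) (ε : ℝ) (hε : 0 < ε) :
    ∃ X₀ : ℕ, ∀ X : ℕ, X₀ ≤ X →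
      |(((SS M K X).filter G).card : ℝ) - c * ((SS M K X).card : ℝ)| ≤ ε * X := by
  obtain ⟨V, C, hV1, hC1, hkey⟩ := KEY.key Pool.Agent.N19.GB.t_BIL Pool.Agent.N19.GB.t_EQ hM hM0 hL
    (ε / 2) (by linarith)
  have hS : S_SIE := Pool.Agent.Y488.CX.t_SIE
  have hMe : S_ME8 := Pool.Agent.N19.GB.t_ME8
  have hH : S_HAL := Pool.Agent.N148.GB.t_HAL
  have hC : CntP := Pool.Agent.N502.GB.CNT.t_CNT
  have hF1 : S_FE1 := Pool.Agent.N502.GB.FE1.t_FE1
  have s1 := sml_many hC
  have s2 := sml_cut hC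
  have s3 := sml_coll hC
  have s4 := sml_sum ((range M).filter fun a => a.Coprime M) (fun a X =>
    (((SA X).filter fun S => ((la (zz X) S).filter fun p => p % M = a).card <
      V * ((sm (zz X) S).card + 1)).card : ℝ)) (fun a ha => by
        rw [mem_filter, mem_range] at ha
        exact sml_eps (Few.few hS hM0 ha.1 ha.2 V))
  have s5 := sml_eps (BAD.t_BAD hS hH hMe (B₀ := oM M) oM_po)
  have s6 := sml_eps (hF1 hS hMe 3 (by norm_num))
  have s7 := sml_eps (hF1 hS hMe 5 (by norm_num))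
  have s8 := sml_main hC1 M
  have stot := sml_add (sml_add (sml_add (sml_add (sml_add (sml_add s1 s2) s3) s4) s5)
    (sml_add s6 s7)) s8
  have hev := stot (ε / 2) (by linarith)
  have hzM : ∀ᶠ X : ℕ in atTop, M ≤ zz X := by
    filter_upwards [ev_eL (M + 1)] with X hX
    have hM' : (0 : ℝ) ≤ M := Nat.cast_nonneg _
    have h1 : (1 : ℝ) ≤ eL X := by linarith
    unfold zz
    apply Nat.le_floor
    have h3 : eL X ≤ (eL X) ^ 3 := le_self_pow₀ h1 (by norm_num)
    have h4 := Real.add_one_le_exp ((eL X) ^ 3)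
    linarith
  have hev2 : ∀ᶠ X : ℕ in atTop, |(((SS M K X).filter G).card : ℝ) -
      c * ((SS M K X).card : ℝ)| ≤ ε * X := by
    filter_upwards [hev, ev_eL 1, hzM] with X hX hl hzX
    have hl0 : 0 < eL X := by linarith
    have hXp := X_pos hl0
    have hNN : (HH X : ℝ) * Real.log X < NN X := by
      unfold NN
      push_cast
      exact Nat.lt_floor_add_one _
    have hmain := hkey X (zz X) (HH X) (kk X) (NN X) (kap C X) hXp (HH_pos hl0)
      (zz_pos hl) hzX (kap_nonneg hC1 X) (kap_pow hC1 hl) hNN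
    set T := (RR M K X (zz X) (HH X) (kk X) V).filter
      fun S => Nd M (sm (zz X) S) (la (zz X) S) with hT
    have hTG : (RR M K X (zz X) (HH X) (kk X) V).filter
        (fun S => Nd M (sm (zz X) S) (la (zz X) S) ∧ G S) = T.filter G := by
      rw [hT, filter_filter]
    rw [hTG] at hmain
    have hTS : T ⊆ SS M K X := (filter_subset _ _).trans (filter_subset _ _)
    have hRS : ((RR M K X (zz X) (HH X) (kk X) V).card : ℝ) ≤ X := by
      exact_mod_cast (card_le_card ((filter_subset _ _).trans (SS_sub M K X))).trans (SA_card X)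
    have hcmp := cmp G T (SS M K X) hTS c hc0 hc1
    have hout : ((SS M K X \ T).card : ℝ) ≤
        ((((((SA X).filter fun S => kk X < S.card).card : ℝ) +
        (((SA X).filter fun S => S.card ≤ kk X ∧
          X < (∏ p ∈ sm (zz X) S, p) * ∏ p ∈ la (zz X) S, XX (HH X) (jj (HH X) p)).card : ℝ)) +
        (((SA X).filter fun S => ¬ Set.InjOn (jj (HH X)) (la (zz X) S : Set ℕ)).card : ℝ)) +
        (∑ a ∈ (range M).filter (fun a => a.Coprime M),
          (((SA X).filter fun S => ((la (zz X) S).filter fun p => p % M = a).card <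
          V * ((sm (zz X) S).card + 1)).card : ℝ)) +
        (((SA X).filter fun S => S.card ≤ kk X ∧
          ¬ N8 (oM M) (sm (zz X) S) (la (zz X) S)).card : ℝ)) +
        ((((SA X).filter fun S => ∀ p ∈ la (zz X) S, p % 8 ≠ 3 % 8).card : ℝ) +
        (((SA X).filter fun S => ∀ p ∈ la (zz X) S, p % 8 ≠ 5 % 8).card : ℝ)) := by
      have g := card_le_card (out_sub hM hM0 K X (zz X) (HH X) (kk X) V)
      rw [← hT] at g
      have gb : (((range M).filter fun a => a.Coprime M).biUnion fun a =>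
          ((SA X).filter fun S => ((la (zz X) S).filter fun p => p % M = a).card <
          V * ((sm (zz X) S).card + 1))).card ≤ ∑ a ∈ (range M).filter (fun a => a.Coprime M),
          ((SA X).filter fun S => ((la (zz X) S).filter fun p => p % M = a).card <
          V * ((sm (zz X) S).card + 1)).card := Finset.card_biUnion_le
      have g2 := (g.trans (card_union_le _ _)).trans (Nat.add_le_add ((card_union_le _ _).trans
        (Nat.add_le_add_right ((card_union_le _ _).trans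
        (Nat.add_le_add ((card_union_le _ _).trans
        (Nat.add_le_add_right (card_union_le _ _) _)) gb)) _)) (card_union_le _ _))
      exact_mod_cast g2
    have g1 : ε / 2 * ((RR M K X (zz X) (HH X) (kk X) V).card : ℝ) ≤ ε / 2 * X :=
      mul_le_mul_of_nonneg_left hRS (by positivity)
    linarith
  obtain ⟨X₀, h0⟩ := eventually_atTop.1 hev2
  exact ⟨X₀, fun X hX => h0 X hX⟩

end Pool.Agent.N916.AM
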