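import Pool.Agent.N916.AM.Low
import Pool.Agent.N958.GB.BOX
import Pool.Agent.N916.GB.LA

/-!
# AM: the Rédei type
-/

set_option autoImplicit false
set_option linter.all false

open scoped Classical

namespace Pool.Agent.N916.AM

open Finset Filter
open Pool.Agent.Y703.CQ (nr sg)
open Pool.Agent.N973.ND (uu nr_rec nr_self)
open Pool.Agent.N916.GB (Po SA ps sx pt Gv Gd Vt eta S_LA sy)
open Pool.Agent.N958.GB (lb rr rr_inj rr_im NR sgm two_tuples Gd_iff rec_NR ud wd z2 mem_Vt
  Vt_sub sy_ne)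

theorem sub_Bs {M : ℕ} (hM : 8 ∣ M) (hM0 : 0 < M) (S₀ : Finset ℕ) : insert 2 S₀ ⊆ Bs M S₀ := by
  intro v hv
  unfold Bs
  rw [mem_union]
  rcases mem_insert.1 hv with rfl | h
  · right
    rw [Nat.mem_primeFactors]
    exact ⟨Nat.prime_two, Dvd.dvd.trans (by norm_num) hM, hM0.ne'⟩
  · exact Or.inl h

/-- the number of the large primes `3` modulo `4` -/
theorem rich3 {M V : ℕ} (hM : 8 ∣ M) (hM0 : 0 < M) {S₀ : Finset ℕ} {ι : Type} [Fintype ι]
    {p : ι → ℕ} (hp : Function.Injective p) (hR : Rich M V S₀ (univ.image p)) :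
    V * (S₀.card + 1) ≤ (univ.filter fun i => uu (p i) = 1).card := by
  have h8 : 8 ≤ M := Nat.le_of_dvd hM0 hM
  have hc : (M - 1).Coprime M := by
    rw [Nat.coprime_self_sub_left (by omega)]
    exact Nat.coprime_one_left M
  refine (hR (M - 1) (by omega) hc).trans ?_
  rw [Finset.filter_image, Finset.card_image_of_injective _ hp]
  refine card_le_card fun i hi => ?_
  rw [mem_filter] at hi ⊢
  refine ⟨hi.1, ?_⟩
  have h4 : (4 : ℕ) ∣ M := Dvd.dvd.trans (by norm_num) hM
  have h1 : p i % 4 = 3 := by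
    rw [← Nat.mod_mod_of_dvd (p i) h4, hi.2]
    omega
  unfold uu
  rw [if_pos h1]

theorem lah_red {M : ℕ} (hM : 8 ∣ M) (hM0 : 0 < M) {t : Bool} {r s : ZMod 2} {K : Finset ℕ}
    (hts : t = false → s = 0) (htr : t = true → r ≠ 0 ∨ s ≠ 0)
    (hK : ∀ a ∈ K, a % 4 = if s = 0 then 3 else 1) : LAH M K (Gd t r s) eta := by
  intro ε hε
  obtain ⟨V₀, hV₀⟩ := Pool.Agent.N916.GB.t_LA ε hε
  refine ⟨V₀ + 2, ?_⟩
  intro ι _ _ S₀ p hS₀ hp hpi hpK hN hR
  have h2S : 2 ∉ S₀ := fun h => (hS₀ 2 h).2 rfl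
  have ht : ∀ v ∈ Vt t S₀, v = 2 → t = true := by
    intro v hv hv2
    rcases mem_Vt.1 hv with h | h
    · exact h.1
    · exact absurd (hv2 ▸ h) h2S
  set r₀ := rr t S₀ p with hr₀
  have hrp : ∀ i, (r₀ i).Prime := by
    rintro (v | k)
    · rcases mem_Vt.1 v.2 with h | h
      · show (v : ℕ).Prime
        rw [h.2]
        exact Nat.prime_two
      · exact (hS₀ _ h).1
    · exact (hp k).1.1
  have hrinj : Function.Injective r₀ := rr_inj t hpi (fun i => (hp i).2.1) fun i => (hp i).1.2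
  have hur : ∀ k : ι, ud s r₀ (Sum.inr k) = uu (p k) := by
    intro k
    exact if_neg (hp k).1.2
  have h4M : (4 : ℕ) ∣ M := Dvd.dvd.trans (by norm_num) hM
  have h2 := hV₀ (Vt t S₀) ι (wd r r₀) (ud s r₀) (NR r s r₀)
    (fun k => if_neg (hp k).1.2)
    (by
      rw [Fintype.sum_sum_type]
      have a1 : ∑ i, ud s r₀ (Sum.inr i : (Vt t S₀ : Finset ℕ) ⊕ ι) = ∑ i, uu (p i) :=
        sum_congr rfl fun i _ => hur i
      have a2 : ∑ v : (Vt t S₀ : Finset ℕ), ud s r₀ (Sum.inl v : (Vt t S₀ : Finset ℕ) ⊕ ι) =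
          ∑ x ∈ Vt t S₀, if x = 2 then s else uu x := by
        rw [← Finset.sum_coe_sort (Vt t S₀)]
        rfl
      have a3 : ∑ x ∈ S₀, (if x = 2 then s else uu x) = ∑ x ∈ S₀, uu x :=
        sum_congr rfl fun x hx => if_neg (hS₀ x hx).2
      have a4 : ∑ x ∈ Vt t S₀, (if x = 2 then s else uu x) = s + ∑ x ∈ S₀, uu x := by
        cases t with
        | true =>
          show ∑ x ∈ insert 2 S₀, (if x = 2 then s else uu x) = s + ∑ x ∈ S₀, uu x
          rw [sum_insert h2S, a3, if_pos rfl]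
        | false =>
          show ∑ x ∈ S₀, (if x = 2 then s else uu x) = s + ∑ x ∈ S₀, uu x
          rw [a3, hts rfl, zero_add]
      have a5 : ∑ i, uu (p i) = ∑ x ∈ univ.image p, uu x :=
        (sum_image fun i _ j _ h => hpi h).symm
      have hdis : Disjoint S₀ (univ.image p) := by
        rw [Finset.disjoint_left]
        intro x hx hx'
        obtain ⟨i, -, rfl⟩ := mem_image.1 hx'
        exact (hp i).2.1 hx
      have a6 : ∑ x ∈ S₀ ∪ univ.image p, uu x = ∑ x ∈ S₀, uu x + ∑ x ∈ univ.image p, uu x :=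
        sum_union hdis
      have a7 : ∏ x ∈ S₀ ∪ univ.image p, x = (∏ v ∈ S₀, v) * ∏ i, p i := by
        rw [prod_union hdis, prod_image fun i _ j _ h => hpi h]
      have a8 := Pool.Agent.N916.GB.sum_uu (S₀ ∪ univ.image p) (by
        intro x hx
        rcases mem_union.1 hx with h | h
        · exact hS₀ x h
        · obtain ⟨i, -, rfl⟩ := mem_image.1 h
          exact (hp i).1)
      rw [a7] at a8
      have a9 := hK _ hpK
      rw [Nat.mod_mod_of_dvd _ h4M, a8, a6] at a9
      rw [a1, a2, a4, a5]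
      rcases z2 s with hs | hs <;> rcases z2 (∑ x ∈ S₀, uu x + ∑ x ∈ univ.image p, uu x) with h | h
      · rw [h, hs, if_pos rfl, if_pos rfl] at a9
        omega
      · rw [hs, zero_add, h]
      · rw [hs, add_assoc, h, add_zero]
      · rw [h, hs, if_neg (by decide), if_neg (by decide)] at a9
        omega)
    (fun i j hij => rec_NR r s hrinj hrp i j hij)
    (by
      intro v hv
      have b1 : ∀ v' : (Vt t S₀ : Finset ℕ), wd r r₀ (Sum.inl v') = 0 → (v' : ℕ) = 2 ∧ r = 0 := by
        intro v' hv'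
        have hv'' : (if (v' : ℕ) = 2 then r else 1) = 0 := hv'
        by_cases h : (v' : ℕ) = 2
        · rw [if_pos h] at hv''
          exact ⟨h, hv''⟩
        · rw [if_neg h] at hv''
          exact absurd hv'' (by decide)
      obtain ⟨b2, b3⟩ := b1 v hv
      refine ⟨?_, fun v' hv' => Subtype.ext (b2.trans (b1 v' hv').1.symm)⟩
      have b4 : s = 1 := by
        rcases z2 s with h | h
        · exact absurd (htr (ht v v.2 b2)) (by
            rintro (h' | h')
            · exact h' b3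
            · exact h' h)
        · exact h
      show (if (v : ℕ) = 2 then s else uu v) = 1
      rw [if_pos b2, b4])
    (by
      intro b s' hbs
      set w : ℕ → ZMod 2 := fun n => if h : n ∈ Vt t S₀ then b ⟨n, h⟩ else 0 with hw
      have hw1 : ∀ v : (Vt t S₀ : Finset ℕ), w v = b v := fun v => by
        rw [hw]
        exact dif_pos v.2
      have hw2 : ∀ n, n ∉ Vt t S₀ → w n = 0 := fun n hn => by
        rw [hw]
        exact dif_neg hn
      have hsub : Vt t S₀ ⊆ Bs M S₀ := (Vt_sub t S₀).trans (sub_Bs hM hM0 S₀)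
      obtain ⟨x, hx, hx2⟩ := hN w s' (by
        rcases hbs with ⟨v, hv⟩ | h
        · exact Or.inl ⟨v, hsub v.2, by rw [hw1]; exact hv⟩
        · exact Or.inr h)
      obtain ⟨k, -, rfl⟩ := mem_image.1 hx
      refine ⟨k, ?_⟩
      rw [hur]
      intro h0
      apply hx2
      refine Eq.trans ?_ h0
      congr 1
      have c2 : ∑ v ∈ Vt t S₀, w v * nr (p k) v = ∑ v ∈ Bs M S₀, w v * nr (p k) v :=
        sum_subset hsub fun x _ hx => by rw [hw2 x hx, zero_mul]
      have c3 : ∑ v : (Vt t S₀ : Finset ℕ), b v * NR r s r₀ (Sum.inl v) (Sum.inr k) =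
          ∑ v ∈ Vt t S₀, w v * nr (p k) v := by
        rw [← Finset.sum_coe_sort (Vt t S₀)]
        refine sum_congr rfl fun v _ => ?_
        rw [hw1]
        congr 1
        exact sy_ne r s (hp k).1.2
      exact c2.symm.trans c3.symm)
    (by
      have d1 : Fintype.card (Vt t S₀ : Finset ℕ) ≤ S₀.card + 1 := by
        rw [Fintype.card_coe]
        exact (card_le_card (Vt_sub t S₀)).trans (card_insert_le _ _)
      have d2 : (univ.filter fun k : ι => ud s r₀ (Sum.inr k) = 1) =
          univ.filter fun i => uu (p i) = 1 := by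
        refine filter_congr fun k _ => ?_
        rw [hur]
      rw [d2]
      refine le_trans ?_ (rich3 hM hM0 hpi hR)
      have : (V₀ + 2) * (S₀.card + 1) = V₀ * S₀.card + V₀ + 2 * (S₀.card + 1) := by ring
      rw [this]
      have := Nat.zero_le (V₀ * S₀.card)
      omega)
  refine ⟨fun σ => Gv (pt (NR r s r₀) (sx (σ + sgm p))), ?_, ?_⟩
  · intro q hqi hq
    rw [Gd_iff t r s (rr_inj t hqi (fun i => (hq i).2.1) fun i => (hq i).1.2) (rr_im t)]
    have hmod4 : ∀ i, q i % 4 = p i % 4 := by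
      intro i
      rw [← Nat.mod_mod_of_dvd (q i) h4M, (hq i).2.2.1, Nat.mod_mod_of_dvd (p i) h4M]
    have huu : ∀ i, uu (q i) = uu (p i) := fun i => uu_mod hM (hq i).2.2.1
    have hqc : ∀ i, (q i).Coprime M := by
      intro i
      have h1 := (hp i).2.2
      rw [Nat.coprime_comm, Nat.Coprime, Nat.gcd_rec] at h1 ⊢
      rw [(hq i).2.2.1]
      exact h1
    have a0 := two_tuples (S₀ := S₀) (τ := fun i => p i % 4) t r s hqi hpi (fun i => (hq i).1)
      (fun i => (hp i).1) hmod4 (fun i => rfl) (fun i => by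
        have hv : ∀ v ∈ Bs M S₀, nr (q i) v = nr (p i) v :=
          nr_Bs hM (hq i).1 (hp i).1 (hqc i) (hp i).2.2 (hq i).2.2.1 (hq i).2.2.2
        refine Prod.ext ?_ ?_
        · funext v
          exact hv v (sub_Bs hM hM0 S₀ v.2)
        · funext v
          show nr v (q i) = nr v (p i)
          have hne1 : q i ≠ v := fun h => (hq i).2.1 (h ▸ v.2)
          have hne2 : p i ≠ v := fun h => (hp i).2.1 (h ▸ v.2)
          rw [nr_rec (hq i).1.1 (hq i).1.2 (hS₀ v v.2).1 (hS₀ v v.2).2 hne1,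
            nr_rec (hp i).1.1 (hp i).1.2 (hS₀ v v.2).1 (hS₀ v v.2).2 hne2, huu,
            hv v (sub_Bs hM hM0 S₀ (mem_insert_of_mem v.2))])
    show Gv (NR r s (rr t S₀ q)) ↔ Gv (pt (NR r s r₀) (sx (sgm q + sgm p)))
    rw [a0]
  · have hQc : (univ.filter fun σ : ps ι → ZMod 2 => Gv (pt (NR r s r₀) (sx (σ + sgm p)))).card =
        (univ.filter fun σ : ps ι → ZMod 2 => Gv (pt (NR r s r₀) (sx σ))).card := by
      refine card_bij (fun σ _ => σ + sgm p) ?_ ?_ ?_
      · intro σ hσ
        rw [mem_filter] at hσ ⊢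
        exact ⟨mem_univ _, hσ.2⟩
      · intro σ _ σ' _ h
        exact add_right_cancel h
      · intro σ hσ
        refine ⟨σ - sgm p, ?_, sub_add_cancel _ _⟩
        rw [mem_filter] at hσ ⊢
        refine ⟨mem_univ _, ?_⟩
        simp only [sub_add_cancel]
        exact hσ.2
    rw [hQc]
    exact h2

end Pool.Agent.N916.AM
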