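import Pool.Agent.N916.AM.Asy
import Pool.Agent.N916.GB.Tr

/-!
# AM: from sets of primes to integers
-/

set_option autoImplicit false
set_option linter.all false

open scoped Classical

namespace Pool.Agent.N916.AM

open Finset Filter
open Pool.Agent.N916.GB (Po SA)

theorem cl_iff {M : ℕ} (hM : 2 ∣ M) {K : Finset ℕ} (hK : ∀ a ∈ K, a % 2 = 1) {D : ℕ}
    (hD : Squarefree D) : Cl M K D.primeFactors ↔ D % M ∈ K := by
  unfold Cl
  rw [Nat.prod_primeFactors_of_squarefree hD]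
  constructor
  · exact fun h => h.2
  · intro h
    refine ⟨fun p hp => ?_, h⟩
    obtain ⟨hpp, hpd, _⟩ := Nat.mem_primeFactors.1 hp
    refine ⟨hpp, ?_⟩
    rintro rfl
    have h1 := hK _ h
    rw [Nat.mod_mod_of_dvd _ hM] at h1
    omega

theorem card_eq {M : ℕ} (hM : 2 ∣ M) {K : Finset ℕ} (hK : ∀ a ∈ K, a % 2 = 1) (X : ℕ)
    (Q : Finset ℕ → Prop) :
    ((Icc 1 X).filter fun D => Squarefree D ∧ D % M ∈ K ∧ Q D.primeFactors).card =
      ((SS M K X).filter Q).card := by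
  refine Finset.card_bij (fun D _ => D.primeFactors) ?_ ?_ ?_
  · intro D hD
    obtain ⟨h1, h2, h3, h4⟩ := Finset.mem_filter.1 hD
    obtain ⟨h5, h6⟩ := Finset.mem_Icc.1 h1
    refine Finset.mem_filter.2 ⟨Finset.mem_filter.2 ⟨?_, (cl_iff hM hK h2).2 h3, ?_⟩, h4⟩
    · rw [Finset.mem_powerset]
      intro p hp
      have := Nat.le_of_dvd (by omega) (Nat.dvd_of_mem_primeFactors hp)
      exact Finset.mem_range.2 (by omega)
    · rw [Nat.prod_primeFactors_of_squarefree h2]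
      exact h6
  · intro D hD E hE h
    have h2 := (Finset.mem_filter.1 hD).2.1
    have h3 := (Finset.mem_filter.1 hE).2.1
    have h' : D.primeFactors = E.primeFactors := h
    rw [← Nat.prod_primeFactors_of_squarefree h2, ← Nat.prod_primeFactors_of_squarefree h3, h']
  · intro S hS
    obtain ⟨h1, h2⟩ := Finset.mem_filter.1 hS
    obtain ⟨h3, h4, h5⟩ := Finset.mem_filter.1 h1
    have hpr : ∀ p ∈ S, p.Prime := fun p hp => (h4.1 p hp).1
    have hpf : (∏ p ∈ S, p).primeFactors = S := Nat.primeFactors_prod hpr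
    have hsq : Squarefree (∏ p ∈ S, p) := by
      refine Finset.squarefree_prod_of_pairwise_isCoprime (fun p hp q hq hpq => ?_)
        fun p hp => (hpr p hp).squarefree
      show IsRelPrime p q
      rw [← Nat.coprime_iff_isRelPrime]
      exact (Nat.coprime_primes (hpr p hp) (hpr q hq)).mpr hpq
    refine ⟨∏ p ∈ S, p, ?_, hpf⟩
    have hcl : Cl M K (∏ p ∈ S, p).primeFactors := by rw [hpf]; exact h4
    have c1 := (cl_iff hM hK hsq).1 hcl
    refine Finset.mem_filter.2 ⟨Finset.mem_Icc.2 ⟨?_, h5⟩, hsq, c1, ?_⟩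
    · exact Nat.one_le_iff_ne_zero.2 hsq.ne_zero
    · rw [hpf]
      exact h2

/-! ### The positive density -/

/-- the numbers `a` modulo `M` -/
def T' (M a X : ℕ) : Finset ℕ := (Icc 1 X).filter fun n => n % M = a

theorem card_T' {M a : ℕ} (hM : 0 < M) (ha : 0 < a) (ha' : a < M) (X : ℕ) :
    X / M ≤ (T' M a X).card := by
  have h : (range (X / M)).card ≤ (T' M a X).card := by
    apply card_le_card_of_injOn (fun k => M * k + a)
    · intro k hk
      rw [mem_coe, mem_range] at hk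
      rw [mem_coe, T', mem_filter, mem_Icc]
      show (1 ≤ M * k + a ∧ M * k + a ≤ X) ∧ (M * k + a) % M = a
      refine ⟨⟨by omega, ?_⟩, ?_⟩
      · have h1 : M * (k + 1) ≤ M * (X / M) := Nat.mul_le_mul_left _ (by omega)
        have h2 := Nat.mul_div_le X M
        have h3 : M * (k + 1) = M * k + M := by ring
        omega
      · rw [Nat.mul_add_mod, Nat.mod_eq_of_lt ha']
    · intro x _ y _ h
      simp only at h
      exact Nat.eq_of_mul_eq_mul_left hM (Nat.add_right_cancel h)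
  rwa [card_range] at h

theorem card_B {M a : ℕ} (hc : a.Coprime M) (X m : ℕ) :
    ((T' M a X).filter fun n => m * m ∣ n).card ≤ X / (M * (m * m)) + 1 := by
  rw [← card_range (X / (M * (m * m)) + 1)]
  apply card_le_card_of_injOn (fun n => n / (M * (m * m)))
  · intro n hn
    rw [mem_coe, mem_filter, T', mem_filter, mem_Icc] at hn
    rw [mem_coe, mem_range]
    exact Nat.lt_succ_of_le (Nat.div_le_div_right hn.1.1.2)
  · intro n hn n' hn' h
    rw [mem_coe, mem_filter, T', mem_filter, mem_Icc] at hn hn'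
    have h' : n / (M * (m * m)) = n' / (M * (m * m)) := h
    have hcop : Nat.Coprime M (m * m) := by
      have h1 : Nat.Coprime M n := by
        rw [Nat.Coprime, Nat.gcd_rec, hn.1.2]
        exact hc
      exact Nat.Coprime.coprime_dvd_right hn.2 h1
    have h2 : n ≡ n' [MOD M * (m * m)] := by
      rw [← Nat.modEq_and_modEq_iff_modEq_mul hcop]
      refine ⟨?_, ?_⟩
      · show n % M = n' % M
        rw [hn.1.2, hn'.1.2]
      · show n % (m * m) = n' % (m * m)
        rw [Nat.mod_eq_zero_of_dvd hn.2, Nat.mod_eq_zero_of_dvd hn'.2]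
    have h3 : n % (M * (m * m)) = n' % (M * (m * m)) := h2
    rw [← Nat.div_add_mod n (M * (m * m)), ← Nat.div_add_mod n' (M * (m * m)), h', h3]

/-- the squarefree numbers in a class prime to `M` have positive lower density -/
theorem low0 {M a : ℕ} (hM : 0 < M) (hM2 : 2 ∣ M) (ha' : a < M) (hc : a.Coprime M) (X : ℕ)
    (hX : 144 * M ^ 2 ≤ X) :
    (1 / (4 * M) : ℝ) * X ≤ (((Icc 1 X).filter fun D => Squarefree D ∧ D % M = a).card : ℝ) := by
  have hM2' : 2 ≤ M := Nat.le_of_dvd hM hM2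
  have ha : 0 < a := by
    rcases Nat.eq_zero_or_pos a with h | h
    · subst h
      rw [Nat.coprime_zero_left] at hc
      omega
    · exact h
  have ha2 : a % 2 = 1 := by
    by_contra h
    have h1 : 2 ∣ a := by omega
    have h2 : 2 ∣ Nat.gcd a M := Nat.dvd_gcd h1 hM2
    rw [hc] at h2
    omega
  set K := Nat.sqrt X with hK
  have hMr : (0 : ℝ) < M := by exact_mod_cast hM
  have h1 : (T' M a X).filter (fun n => ¬ Squarefree n) ⊆
      (Icc 1 K).biUnion fun k => (T' M a X).filter fun n => (2 * k + 1) * (2 * k + 1) ∣ n := by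
    intro n hn
    rw [mem_filter] at hn
    obtain ⟨hn1, hn2⟩ := hn
    have hn1' := hn1
    rw [T', mem_filter, mem_Icc] at hn1'
    rw [Nat.squarefree_iff_prime_squarefree] at hn2
    push Not at hn2
    obtain ⟨p, hp, hd⟩ := hn2
    have hodd : p % 2 = 1 := by
      rcases hp.eq_two_or_odd with h | h
      · exfalso
        subst h
        have h2 : 2 ∣ n := (Dvd.intro _ rfl).trans hd
        have h3 : n % M % 2 = n % 2 := Nat.mod_mod_of_dvd n hM2
        rw [hn1'.2] at h3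
        omega
      · exact h
    have hp3 : 3 ≤ p := by
      have := hp.two_le
      omega
    rw [mem_biUnion]
    have hle : p * p ≤ X := (Nat.le_of_dvd (by omega) hd).trans hn1'.1.2
    have hle' : p ≤ K := Nat.le_sqrt.2 hle
    refine ⟨p / 2, mem_Icc.2 ⟨by omega, by omega⟩, ?_⟩
    rw [mem_filter]
    have : 2 * (p / 2) + 1 = p := by omega
    rw [this]
    exact ⟨hn1, hd⟩
  have h2 : ((T' M a X).filter (fun n => ¬ Squarefree n)).card ≤
      ∑ k ∈ Icc 1 K, (X / (M * ((2 * k + 1) * (2 * k + 1))) + 1) :=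
    (card_le_card h1).trans (card_biUnion_le.trans (sum_le_sum fun k _ =>
      card_B hc X (2 * k + 1)))
  have h3 : (((T' M a X).filter (fun n => ¬ Squarefree n)).card : ℝ) ≤
      ∑ k ∈ Icc 1 K, ((X : ℝ) / M * (1 / (((2 * k + 1 : ℕ) : ℝ) ^ 2)) + 1) := by
    have h4 : (((T' M a X).filter (fun n => ¬ Squarefree n)).card : ℝ) ≤
        ∑ k ∈ Icc 1 K, (((X / (M * ((2 * k + 1) * (2 * k + 1))) : ℕ) : ℝ) + 1) := by
      exact_mod_cast h2
    refine h4.trans (sum_le_sum fun k _ => ?_)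
    have h5 : (((X / (M * ((2 * k + 1) * (2 * k + 1))) : ℕ) : ℝ)) ≤
        (X : ℝ) / ((M * ((2 * k + 1) * (2 * k + 1)) : ℕ) : ℝ) := Nat.cast_div_le
    have h6 : (X : ℝ) / ((M * ((2 * k + 1) * (2 * k + 1)) : ℕ) : ℝ) =
        (X : ℝ) / M * (1 / (((2 * k + 1 : ℕ) : ℝ) ^ 2)) := by
      push_cast
      rw [div_mul_div_comm, mul_one, pow_two]
    linarith
  rw [sum_add_distrib, ← mul_sum, sum_const, Nat.card_Icc, Nat.add_sub_cancel, nsmul_eq_mul,
    mul_one] at h3
  have h4 := Pool.Agent.N916.GB.sum_odd_sq K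
  have hX0 : (0 : ℝ) ≤ X := Nat.cast_nonneg _
  set Y : ℝ := (X : ℝ) / M with hY
  have hY0 : 0 ≤ Y := by positivity
  have h5 : Y * ∑ k ∈ Icc 1 K, (1 : ℝ) / (((2 * k + 1 : ℕ) : ℝ) ^ 2) ≤ Y * (1 / 4) := by
    apply mul_le_mul_of_nonneg_left _ hY0
    have : (0 : ℝ) ≤ 1 / (4 * ((K : ℝ) + 1)) := by positivity
    linarith
  have hK12 : 12 * M ≤ K := by
    apply Nat.le_sqrt.2
    calc 12 * M * (12 * M) = 144 * M ^ 2 := by ring
      _ ≤ X := hX
  have h6 : (K : ℝ) ≤ Y / 12 := by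
    have h7 : K * K ≤ X := Nat.sqrt_le X
    have h10 : 12 * M * K ≤ X := (Nat.mul_le_mul_right K hK12).trans h7
    have h11 : (12 * (M : ℝ) * K) ≤ X := by exact_mod_cast h10
    rw [hY, div_div, le_div_iff₀ (by positivity)]
    linarith
  have h7 : Y - 1 ≤ ((T' M a X).card : ℝ) := by
    have h8 : Y < ((X / M : ℕ) : ℝ) + 1 := by
      rw [hY, div_lt_iff₀ hMr]
      have : X < (X / M + 1) * M := Nat.lt_mul_of_div_lt (Nat.lt_succ_self _) hM
      exact_mod_cast this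
    have h9 : ((X / M : ℕ) : ℝ) ≤ (T' M a X).card := by exact_mod_cast card_T' hM ha ha' X
    linarith
  have h8 : ((T' M a X).filter Squarefree).card +
      ((T' M a X).filter (fun n => ¬ Squarefree n)).card =
      (T' M a X).card := card_filter_add_card_filter_not _
  have h9 : (((T' M a X).filter Squarefree).card : ℝ) +
      (((T' M a X).filter (fun n => ¬ Squarefree n)).card : ℝ) = (T' M a X).card := by
    exact_mod_cast h8
  have h10 : (T' M a X).filter Squarefree =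
      (Icc 1 X).filter fun D => Squarefree D ∧ D % M = a := by
    ext n
    rw [mem_filter, T', mem_filter, mem_filter]
    tauto
  rw [← h10]
  have hY12 : (12 : ℝ) ≤ Y := by
    have h11 : (1 : ℝ) ≤ K := by
      have : 1 ≤ K := by omega
      exact_mod_cast this
    linarith
  have h12 : (1 / (4 * M) : ℝ) * X = Y / 4 := by
    rw [hY]
    field_simp
  rw [h12]
  linarith

/-- the squarefree numbers in a class have positive lower density if the class contains a
squarefree number -/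
theorem low {M n₀ : ℕ} (hM : 0 < M) (hM2 : 2 ∣ M) (hn : Squarefree n₀) :
    ∃ (c : ℝ) (X₀ : ℕ), 0 < c ∧ ∀ X : ℕ, X₀ ≤ X →
      c * X ≤ (((Icc 1 X).filter fun D => Squarefree D ∧ D % M = n₀ % M).card : ℝ) := by
  set g := Nat.gcd n₀ M with hg
  have hg0 : 0 < g := Nat.gcd_pos_of_pos_right _ hM
  obtain ⟨n₁, hn₁⟩ : g ∣ n₀ := Nat.gcd_dvd_left _ _
  have hsq : Squarefree (g * n₁) := hn₁ ▸ hn
  have hcop : Nat.Coprime g n₁ := Nat.coprime_of_squarefree_mul hsq
  have hcM : n₁.Coprime M := by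
    rw [Nat.coprime_iff_gcd_eq_one]
    by_contra h
    obtain ⟨p, hp, hpd⟩ := Nat.exists_prime_and_dvd h
    have h1 : p ∣ n₁ := hpd.trans (Nat.gcd_dvd_left _ _)
    have h2 : p ∣ M := hpd.trans (Nat.gcd_dvd_right _ _)
    have h3 : p ∣ g := Nat.dvd_gcd (hn₁ ▸ h1.mul_left g) h2
    have h4 := Nat.dvd_gcd h3 h1
    rw [hcop] at h4
    exact hp.one_lt.ne' (Nat.dvd_one.1 h4)
  have ha : n₁ % M < M := Nat.mod_lt _ hM
  have hac : (n₁ % M).Coprime M := by
    rw [Nat.coprime_iff_gcd_eq_one, ← Nat.gcd_rec, Nat.gcd_comm]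
    exact hcM
  have hMr : (0 : ℝ) < M := by exact_mod_cast hM
  have hgr : (0 : ℝ) < g := by exact_mod_cast hg0
  refine ⟨1 / (8 * M * g), g * (144 * M ^ 2 + 1), by positivity, fun X hX => ?_⟩
  have hXg : 144 * M ^ 2 + 1 ≤ X / g := by
    rw [Nat.le_div_iff_mul_le hg0, mul_comm]
    exact hX
  have h1 := low0 hM hM2 ha hac (X / g) (by omega)
  have h2 : ((Icc 1 (X / g)).filter fun D => Squarefree D ∧ D % M = n₁ % M).card ≤
      ((Icc 1 X).filter fun D => Squarefree D ∧ D % M = n₀ % M).card := by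
    apply card_le_card_of_injOn (fun D => g * D)
    · intro D hD
      rw [mem_coe, mem_filter, mem_Icc] at hD
      obtain ⟨⟨d1, d2⟩, d3, d4⟩ := hD
      rw [mem_coe, mem_filter, mem_Icc]
      simp only
      have hDM : D.Coprime M := by
        rw [Nat.coprime_comm, Nat.Coprime, Nat.gcd_rec, d4, ← Nat.gcd_rec, Nat.gcd_comm]
        exact hcM
      have hgD : Nat.Coprime g D :=
        (Nat.Coprime.coprime_dvd_right (Nat.gcd_dvd_right n₀ M) hDM).symm
      refine ⟨⟨Nat.mul_pos hg0 d1, ?_⟩, ?_, ?_⟩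
      · rw [mul_comm]
        exact (Nat.le_div_iff_mul_le hg0).1 d2
      · rw [Nat.squarefree_mul hgD]
        exact ⟨hsq.of_mul_left, d3⟩
      · rw [Nat.mul_mod, d4, ← Nat.mul_mod, ← hn₁]
    · intro x _ y _ h
      exact Nat.eq_of_mul_eq_mul_left hg0 h
  have h3 : (((Icc 1 (X / g)).filter fun D => Squarefree D ∧ D % M = n₁ % M).card : ℝ) ≤
      (((Icc 1 X).filter fun D => Squarefree D ∧ D % M = n₀ % M).card : ℝ) := by exact_mod_cast h2
  refine le_trans ?_ (h1.trans h3)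
  have h5 : X < (X / g + 1) * g := Nat.lt_mul_of_div_lt (Nat.lt_succ_self _) hg0
  have h6 : (X : ℝ) < (((X / g : ℕ) : ℝ) + 1) * g := by exact_mod_cast h5
  have h7 : (1 : ℝ) ≤ ((X / g : ℕ) : ℝ) := by
    have : 1 ≤ X / g := by omega
    exact_mod_cast this
  have h8 : (X : ℝ) ≤ 2 * ((X / g : ℕ) : ℝ) * g := by
    have h9 : (((X / g : ℕ) : ℝ) + 1) * g ≤ 2 * ((X / g : ℕ) : ℝ) * g :=
      mul_le_mul_of_nonneg_right (by linarith) hgr.le
    linarith
  calc 1 / (8 * M * g) * (X : ℝ) ≤ 1 / (8 * M * g) * (2 * ((X / g : ℕ) : ℝ) * g) :=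
        mul_le_mul_of_nonneg_left h8 (by positivity)
    _ = 1 / (4 * M) * ((X / g : ℕ) : ℝ) := by
        field_simp
        ring

/-- the count in a union of classes -/
theorem dq {M : ℕ} (hM : 8 ∣ M) (hM0 : 0 < M) {K : Finset ℕ} {G : Finset ℕ → Prop} {c : ℝ}
    (hc0 : 0 ≤ c) (hc1 : c ≤ 1) (hL : LAH M K G c) (hK : ∀ a ∈ K, a % 2 = 1) :
    ∀ ε : ℝ, 0 < ε → ∃ X₀ : ℕ, ∀ X : ℕ, X₀ ≤ X →
      |(((Icc 1 X).filter fun n => Squarefree n ∧ n % M ∈ K ∧ G n.primeFactors).card : ℝ) -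
        c * (((Icc 1 X).filter fun n => Squarefree n ∧ n % M ∈ K).card : ℝ)| ≤ ε * X := by
  have hM2 : 2 ∣ M := Dvd.dvd.trans (by norm_num) hM
  intro ε hε
  obtain ⟨X₀, hX₀⟩ := t_DQ hM hM0 hc0 hc1 hL ε hε
  refine ⟨X₀, fun X hX => ?_⟩
  have h1 := hX₀ X hX
  have e1 := card_eq hM2 hK X G
  have e2 := card_eq hM2 hK X (fun _ => True)
  rw [Finset.filter_true] at e2
  simp only [and_true] at e2
  rw [← e1, ← e2] at h1
  exact h1

/-- from the count to the ratio -/
theorem ratio {A B : ℕ → ℕ} {c c₁ : ℝ} {X₁ : ℕ} (hc₁ : 0 < c₁)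
    (hlow : ∀ X : ℕ, X₁ ≤ X → c₁ * X ≤ (B X : ℝ))
    (h : ∀ ε : ℝ, 0 < ε → ∃ X₀ : ℕ, ∀ X : ℕ, X₀ ≤ X → |(A X : ℝ) - c * (B X : ℝ)| ≤ ε * X) :
    Tendsto (fun X => (A X : ℝ) / (B X : ℝ)) atTop (nhds c) := by
  rw [Metric.tendsto_atTop]
  intro ε hε
  obtain ⟨X₀, hX₀⟩ := h (ε / 2 * c₁) (by positivity)
  refine ⟨max X₀ (X₁ + 1), fun X hX => ?_⟩
  have h1 := hX₀ X ((le_max_left _ _).trans hX)
  have hX1 : X₁ + 1 ≤ X := (le_max_right _ _).trans hX
  have h2 := hlow X (by omega)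
  have hXp : (0 : ℝ) < X := by
    have : 0 < X := by omega
    exact_mod_cast this
  have hB0 : (0 : ℝ) < (B X : ℝ) := by
    have : 0 < c₁ * X := by positivity
    linarith
  rw [Real.dist_eq, div_sub' hB0.ne', abs_div, abs_of_pos hB0, div_lt_iff₀ hB0, mul_comm (B X : ℝ)]
  have h4 : ε / 2 * c₁ * X ≤ ε / 2 * (B X : ℝ) := by
    calc ε / 2 * c₁ * X = ε / 2 * (c₁ * X) := by ring
      _ ≤ ε / 2 * (B X : ℝ) := by gcongr
  have h5 : ε / 2 * (B X : ℝ) < ε * (B X : ℝ) := by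
    apply mul_lt_mul_of_pos_right _ hB0
    linarith
  linarith

/-- **the natural density in a union of classes modulo `M`** -/
theorem dens {M : ℕ} (hM : 8 ∣ M) (hM0 : 0 < M) {K : Finset ℕ} {G : Finset ℕ → Prop} {c : ℝ}
    (hc0 : 0 ≤ c) (hc1 : c ≤ 1) (hL : LAH M K G c) (hK : ∀ a ∈ K, a % 2 = 1) {n₀ : ℕ}
    (hn : Squarefree n₀) (hn₀ : n₀ % M ∈ K) : Tendsto
  (fun X : ℕ => (((Icc 1 X).filter fun n => Squarefree n ∧ n % M ∈ K ∧
      G n.primeFactors).card : ℝ) /
    (((Icc 1 X).filter fun n => Squarefree n ∧ n % M ∈ K).card : ℝ)) atTop (nhds c) := by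
  have hM2 : 2 ∣ M := Dvd.dvd.trans (by norm_num) hM
  obtain ⟨c₁, X₁, hc₁, hlow⟩ := low hM0 hM2 hn
  refine ratio hc₁ (fun X hX => (hlow X hX).trans ?_) (dq hM hM0 hc0 hc1 hL hK)
  refine Nat.cast_le.2 (card_le_card fun n hn => ?_)
  rw [mem_filter] at hn ⊢
  refine ⟨hn.1, hn.2.1, ?_⟩
  rw [hn.2.2]
  exact hn₀

end Pool.Agent.N916.AM
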