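import Pool.Agent.N916.AM.Red
import Pool.Agent.N916.TE.Tg

/-!
# AM: natural density of the negative fundamental discriminants in classes modulo an odd number
without ideal classes of order four
-/

set_option autoImplicit false
set_option linter.all false

open scoped Classical

namespace Pool.Agent.N916.AM

open Finset Filter
open Pool.Agent.N973.ND (uu)
open Pool.Agent.N916.GB (Po SA Gd Vt eta Gd_iff_Qc sy)
open Pool.Agent.N916.TE (FD Go qe1 qe2 qe3 sq2 count_split)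
open Pool.Agent.N969.P15 (Qc Qe Cls0 Cls0e Ev)

/-- residues modulo `8 m` -/
def Ks (m c k : ℕ) (R : Finset ℕ) : Finset ℕ :=
  (range (8 * m)).filter fun a => a % 4 = c ∧ (k * a) % m ∈ R

theorem mem_Ks {m : ℕ} (hm : 0 < m) {c k : ℕ} {R : Finset ℕ} (M : ℕ) :
    M % (8 * m) ∈ Ks m c k R ↔ M % 4 = c ∧ (k * M) % m ∈ R := by
  unfold Ks
  rw [mem_filter, mem_range]
  have h1 : M % (8 * m) % 4 = M % 4 := Nat.mod_mod_of_dvd M ⟨2 * m, by ring⟩
  have h2 : (k * (M % (8 * m))) % m = (k * M) % m := by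
    rw [Nat.mul_mod, Nat.mod_mod_of_dvd M ⟨8, by ring⟩, ← Nat.mul_mod]
  rw [h1, h2]
  constructor
  · exact fun h => h.2
  · exact fun h => ⟨Nat.mod_lt _ (by omega), h⟩

theorem cls_iff {m : ℕ} (hm : 0 < m) (R : Finset ℕ) (n : ℕ) : (FD n ∧ n % m ∈ R) ↔
    (Squarefree n ∧ n % (8 * m) ∈ Ks m 3 1 R) ∨
    (∃ M, n = 4 * M ∧ (Squarefree M ∧ M % (8 * m) ∈ Ks m 1 4 R)) ∨
    (∃ M, n = 8 * M ∧ (Squarefree M ∧ M % (8 * m) ∈ Ks m 1 8 R)) ∨
    (∃ M, n = 8 * M ∧ (Squarefree M ∧ M % (8 * m) ∈ Ks m 3 8 R)) := by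
  simp only [mem_Ks hm, one_mul]
  constructor
  · rintro ⟨⟨h1, h2⟩ | ⟨m', rfl, hsq, hm'⟩, h3⟩
    · exact Or.inl ⟨h1, h2, h3⟩
    · rcases hm' with hm' | hm'
      · exact Or.inr (Or.inl ⟨m', rfl, hsq, hm', h3⟩)
      · obtain ⟨M, hM⟩ : ∃ M, m' = 2 * M := ⟨m' / 2, by omega⟩
        have hsM : Squarefree M := hsq.squarefree_of_dvd ⟨2, by rw [hM]; ring⟩
        have h8 : 4 * m' = 8 * M := by omega
        rw [h8] at h3
        rcases (show M % 4 = 1 ∨ M % 4 = 3 by omega) with h | h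
        · exact Or.inr (Or.inr (Or.inl ⟨M, h8, hsM, h, h3⟩))
        · exact Or.inr (Or.inr (Or.inr ⟨M, h8, hsM, h, h3⟩))
  · rintro (⟨h1, h2, h3⟩ | ⟨M, rfl, hsq, hM, h3⟩ | ⟨M, rfl, hsq, hM, h3⟩ | ⟨M, rfl, hsq, hM, h3⟩)
    · exact ⟨Or.inl ⟨h1, h2⟩, h3⟩
    · exact ⟨Or.inr ⟨M, rfl, hsq, Or.inl hM⟩, h3⟩
    · exact ⟨Or.inr ⟨2 * M, by ring, sq2 hsq (by omega), by omega⟩, h3⟩
    · exact ⟨Or.inr ⟨2 * M, by ring, sq2 hsq (by omega), by omega⟩, h3⟩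

theorem Gd_empty : Gd true 0 1 ∅ := by
  unfold Pool.Agent.N916.GB.Gd
  intro x _ p hp q hq
  have h : ∀ v ∈ Vt true ∅, v = 2 := by
    intro v hv
    unfold Pool.Agent.N916.GB.Vt at hv
    rw [if_pos rfl] at hv
    simpa using hv
  rw [h p hp, h q hq]

theorem gcls_iff {m : ℕ} (hm : 0 < m) (R : Finset ℕ) (n : ℕ) :
    (FD n ∧ n % m ∈ R ∧ (Go n ∨ n = 4)) ↔
    (Squarefree n ∧ n % (8 * m) ∈ Ks m 3 1 R ∧ Gd false 0 0 n.primeFactors) ∨
    (∃ M, n = 4 * M ∧ (Squarefree M ∧ M % (8 * m) ∈ Ks m 1 4 R ∧ Gd true 0 1 M.primeFactors)) ∨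
    (∃ M, n = 8 * M ∧ (Squarefree M ∧ M % (8 * m) ∈ Ks m 1 8 R ∧ Gd true 1 1 M.primeFactors)) ∨
    (∃ M, n = 8 * M ∧ (Squarefree M ∧ M % (8 * m) ∈ Ks m 3 8 R ∧ Gd true 1 0 M.primeFactors)) := by
  rw [← and_assoc, cls_iff hm]
  have hg0 : ∀ M, M % (8 * m) ∈ Ks m 3 1 R → M % 4 = 3 := fun M h => ((mem_Ks hm M).1 h).1
  have hg1 : ∀ M, M % (8 * m) ∈ Ks m 1 4 R → M % 4 = 1 := fun M h => ((mem_Ks hm M).1 h).1
  have hg2 : ∀ M, M % (8 * m) ∈ Ks m 1 8 R → M % 4 = 1 := fun M h => ((mem_Ks hm M).1 h).1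
  have hg3 : ∀ M, M % (8 * m) ∈ Ks m 3 8 R → M % 4 = 3 := fun M h => ((mem_Ks hm M).1 h).1
  constructor
  · rintro ⟨⟨h1, h2⟩ | ⟨M, rfl, h1, h2⟩ | ⟨M, rfl, h1, h2⟩ | ⟨M, rfl, h1, h2⟩, h⟩
    · have := hg0 n h2
      rcases h with h | h
      · exact Or.inl ⟨h1, h2, (Gd_iff_Qc h1 this).2 (h.1 (by omega))⟩
      · omega
    · refine Or.inr (Or.inl ⟨M, rfl, h1, h2, ?_⟩)
      by_cases hM : M = 1
      · subst hM
        rw [Nat.primeFactors_one]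
        exact Gd_empty
      · rcases h with h | h
        · exact (qe1 h1 (hg1 M h2) hM).1 (h.2 (by omega))
        · exact absurd h (by omega)
    · rcases h with h | h
      · exact Or.inr (Or.inr (Or.inl ⟨M, rfl, h1, h2, (qe2 h1 (hg2 M h2)).1 (h.2 (by omega))⟩))
      · omega
    · rcases h with h | h
      · exact Or.inr (Or.inr (Or.inr ⟨M, rfl, h1, h2, (qe3 h1 (hg3 M h2)).1 (h.2 (by omega))⟩))
      · omega
  · rintro (⟨h1, h2, h3⟩ | ⟨M, rfl, h1, h2, h3⟩ | ⟨M, rfl, h1, h2, h3⟩ | ⟨M, rfl, h1, h2, h3⟩)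
    · have := hg0 n h2
      exact ⟨Or.inl ⟨h1, h2⟩, Or.inl ⟨fun _ => (Gd_iff_Qc h1 this).1 h3, fun h => by omega⟩⟩
    · refine ⟨Or.inr (Or.inl ⟨M, rfl, h1, h2⟩), ?_⟩
      by_cases hM : M = 1
      · right
        rw [hM]
      · exact Or.inl ⟨fun h => by omega, fun _ => (qe1 h1 (hg1 M h2) hM).2 h3⟩
    · exact ⟨Or.inr (Or.inr (Or.inl ⟨M, rfl, h1, h2⟩)), Or.inl ⟨fun h => by omega,
        fun _ => (qe2 h1 (hg2 M h2)).2 h3⟩⟩
    · exact ⟨Or.inr (Or.inr (Or.inr ⟨M, rfl, h1, h2⟩)), Or.inl ⟨fun h => by omega,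
        fun _ => (qe3 h1 (hg3 M h2)).2 h3⟩⟩

theorem eta01 : 0 ≤ eta ∧ eta ≤ 1 := Pool.Agent.N218.GB.Asy.eta_mem

/-- the count in a class -/
theorem dqG {m : ℕ} (hm : 0 < m) {t : Bool} {r s : ZMod 2} {c k : ℕ} (R : Finset ℕ)
    (hts : t = false → s = 0) (htr : t = true → r ≠ 0 ∨ s ≠ 0) (hc : c = if s = 0 then 3 else 1) :
    ∀ ε : ℝ, 0 < ε → ∃ X₀ : ℕ, ∀ X : ℕ, X₀ ≤ X →
      |(((Icc 1 X).filter fun n => Squarefree n ∧ n % (8 * m) ∈ Ks m c k R ∧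
        Gd t r s n.primeFactors).card : ℝ) - eta * (((Icc 1 X).filter fun n => Squarefree n ∧
          n % (8 * m) ∈ Ks m c k R).card : ℝ)| ≤ ε * X := by
  have h4 : ∀ a ∈ Ks m c k R, a % 4 = if s = 0 then 3 else 1 := by
    intro a ha
    unfold Ks at ha
    rw [← hc]
    exact (mem_filter.1 ha).2.1
  refine dq (Dvd.intro _ rfl) (by omega) eta01.1 eta01.2
    (lah_red (Dvd.intro _ rfl) (by omega) hts htr h4) fun a ha => ?_
  have := h4 a ha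
  split_ifs at this <;> omega

/-- the negative fundamental discriminants in classes modulo `m`, the count -/
theorem count_mod {m : ℕ} (hm : 0 < m) (R : Finset ℕ) : ∀ ε : ℝ, 0 < ε → ∃ X₀ : ℕ, ∀ X : ℕ,
    X₀ ≤ X → |(((Icc 1 X).filter fun n => FD n ∧ n % m ∈ R ∧ Go n).card : ℝ) -
      eta * (((Icc 1 X).filter fun n => FD n ∧ n % m ∈ R).card : ℝ)| ≤ ε * X := by
  intro ε hε
  obtain ⟨X0, h0⟩ := dqG hm (t := false) (r := 0) (s := 0) (c := 3) (k := 1) R (fun _ => rfl)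
    (fun h => absurd h (by decide)) (by rw [if_pos rfl]) (ε / 8) (by positivity)
  obtain ⟨X1, h1⟩ := dqG hm (t := true) (r := 0) (s := 1) (c := 1) (k := 4) R
    (fun h => absurd h (by decide)) (fun _ => Or.inr (by decide)) (by rw [if_neg (by decide)])
    (ε / 8) (by positivity)
  obtain ⟨X2, h2⟩ := dqG hm (t := true) (r := 1) (s := 1) (c := 1) (k := 8) R
    (fun h => absurd h (by decide)) (fun _ => Or.inr (by decide)) (by rw [if_neg (by decide)])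
    (ε / 8) (by positivity)
  obtain ⟨X3, h3⟩ := dqG hm (t := true) (r := 1) (s := 0) (c := 3) (k := 8) R
    (fun h => absurd h (by decide)) (fun _ => Or.inl (by decide)) (by rw [if_pos rfl])
    (ε / 8) (by positivity)
  refine ⟨8 * (X0 + X1 + X2 + X3) + ⌈2 / ε⌉₊, fun X hX => ?_⟩
  have b0 := h0 X (by omega)
  have b1 := h1 (X / 4) (by omega)
  have b2 := h2 (X / 8) (by omega)
  have b3 := h3 (X / 8) (by omega)
  have c1 := count_split X _ _ _ _ _ (gcls_iff hm R) (fun n h => by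
      have := ((mem_Ks hm n).1 h.2.1).1; omega) (fun n h => ((mem_Ks hm n).1 h.2.1).1)
    (fun n h => ((mem_Ks hm n).1 h.2.1).1) (fun n h => ((mem_Ks hm n).1 h.2.1).1)
  have c2 := count_split X _ _ _ _ _ (cls_iff hm R) (fun n h => by
      have := ((mem_Ks hm n).1 h.2).1; omega) (fun n h => ((mem_Ks hm n).1 h.2).1)
    (fun n h => ((mem_Ks hm n).1 h.2).1) (fun n h => ((mem_Ks hm n).1 h.2).1)
  have c1' := congrArg (Nat.cast : ℕ → ℝ) c1
  have c2' := congrArg (Nat.cast : ℕ → ℝ) c2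
  push_cast at c1' c2'
  set G' : ℝ := (((Icc 1 X).filter fun n => FD n ∧ n % m ∈ R ∧ (Go n ∨ n = 4)).card : ℝ) with hG'
  set G : ℝ := (((Icc 1 X).filter fun n => FD n ∧ n % m ∈ R ∧ Go n).card : ℝ) with hG
  set A : ℝ := (((Icc 1 X).filter fun n => FD n ∧ n % m ∈ R).card : ℝ) with hA
  have e1 : G ≤ G' := by
    refine Nat.cast_le.2 (card_le_card fun n hn => ?_)
    rw [mem_filter] at hn ⊢
    exact ⟨hn.1, hn.2.1, hn.2.2.1, Or.inl hn.2.2.2⟩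
  have e2 : G' ≤ G + 1 := by
    have h : ((Icc 1 X).filter fun n => FD n ∧ n % m ∈ R ∧ (Go n ∨ n = 4)) ⊆
        ((Icc 1 X).filter fun n => FD n ∧ n % m ∈ R ∧ Go n) ∪ {4} := by
      intro n hn
      rw [mem_filter] at hn
      rw [mem_union, mem_filter, mem_singleton]
      rcases hn.2.2.2 with h | h
      · exact Or.inl ⟨hn.1, hn.2.1, hn.2.2.1, h⟩
      · exact Or.inr h
    have h' := (card_le_card h).trans (card_union_le _ _)
    rw [card_singleton] at h'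
    rw [hG', hG]
    exact_mod_cast h'
  have hX1 : (1 : ℝ) ≤ ε / 2 * X := by
    have h5 : (2 / ε : ℝ) ≤ X := by
      refine (Nat.le_ceil _).trans ?_
      exact_mod_cast (by omega : ⌈2 / ε⌉₊ ≤ X)
    rw [div_le_iff₀ hε] at h5
    linarith
  have d4 : (((X / 4 : ℕ) : ℝ)) ≤ X / 4 := by
    have := @Nat.cast_div_le ℝ _ _ _ X 4
    simpa using this
  have d8 : (((X / 8 : ℕ) : ℝ)) ≤ X / 8 := by
    have := @Nat.cast_div_le ℝ _ _ _ X 8
    simpa using this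
  rw [abs_le] at b0 b1 b2 b3
  have q1 : ε / 8 * ((X / 4 : ℕ) : ℝ) ≤ ε / 8 * (X / 4) :=
    mul_le_mul_of_nonneg_left d4 (by positivity)
  have q2 : ε / 8 * ((X / 8 : ℕ) : ℝ) ≤ ε / 8 * (X / 8) :=
    mul_le_mul_of_nonneg_left d8 (by positivity)
  have hX' : 0 ≤ ε / 8 * X := by positivity
  rw [abs_le, c2']
  constructor
  · linarith [b0.1, b1.1, b2.1, b3.1]
  · linarith [b0.2, b1.2, b2.2, b3.2]

/-- **natural density in classes modulo `m`**: among the negative fundamental discriminants `-n`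
with `n` modulo `m` in `R`, the proportion of those without ideal classes of order four is `η` -/
theorem density_mod {m : ℕ} (hm : 0 < m) {R : Finset ℕ} {n₀ : ℕ} (hn : Squarefree n₀)
    (h4 : n₀ % 4 = 3) (hR : n₀ % m ∈ R) : Tendsto
  (fun X : ℕ => (((Icc 1 X).filter fun n => FD n ∧ n % m ∈ R ∧ Go n).card : ℝ) /
    (((Icc 1 X).filter fun n => FD n ∧ n % m ∈ R).card : ℝ)) atTop (nhds eta) := by
  obtain ⟨c₁, X₁, hc₁, hlow⟩ := low (M := 8 * m) (by omega) ⟨4 * m, by ring⟩ hn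
  refine ratio hc₁ (fun X hX => (hlow X hX).trans ?_) (count_mod hm R)
  refine Nat.cast_le.2 (card_le_card fun n hn' => ?_)
  rw [mem_filter] at hn' ⊢
  have h1 : n % 4 = 3 := by
    have h2 : n % (8 * m) % 4 = n₀ % (8 * m) % 4 := by rw [hn'.2.2]
    rw [Nat.mod_mod_of_dvd _ ⟨2 * m, by ring⟩, Nat.mod_mod_of_dvd _ ⟨2 * m, by ring⟩] at h2
    omega
  have h2 : n % m ∈ R := by
    have h3 : n % (8 * m) % m = n₀ % (8 * m) % m := by rw [hn'.2.2]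
    rw [Nat.mod_mod_of_dvd _ ⟨8, by ring⟩, Nat.mod_mod_of_dvd _ ⟨8, by ring⟩] at h3
    rw [h3]
    exact hR
  exact ⟨hn'.1, Or.inl ⟨hn'.2.1, h1⟩, h2⟩

end Pool.Agent.N916.AM
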